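import Mathlib

/-!
# E1: existence of the fixed permutations (helper69, MP_8a058f_lc, proofs 333)

Counting only.  Units are the numbers below `2 ^ (Z * Q)` (`Z` chunks of `Q` bits, the top chunk first), places
`Fin (2 ^ (Z * Q)) × Fin (2 ^ Q)`, layers the numbers below `2 ^ g`.
-/

namespace H69.HS

open Finset

section hit

variable {Ω : Type*} [Fintype Ω] [DecidableEq Ω]

/-- permutations mapping the set `X` into `Y` -/
def intoY (X Y : Finset Ω) : Finset (Equiv.Perm Ω) :=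
  univ.filter fun π => ∀ x ∈ X, π x ∈ Y

omit [Fintype Ω] in
private lemma swap_fix {X : Finset Ω} {x x' z : Ω} (hx : x ∉ X) (hx' : x' ∉ X) (hz : z ∈ X) :
    Equiv.swap x x' z = z :=
  Equiv.swap_apply_of_ne_of_ne (fun h => hx (h ▸ hz)) (fun h => hx' (h ▸ hz))

/-- the exact recursion, as an inequality -/
private lemma intoY_step (X Y : Finset Ω) (x : Ω) (hx : x ∉ X) :
    (intoY (insert x X) Y).card * (Fintype.card Ω - X.card)
      = (intoY X Y).card * (Y.card - X.card) := by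
  classical
  -- count pairs (π, x') with π ∈ intoY X Y, x' ∉ X, π x' ∈ Y
  have h1 : ∀ x' ∈ (univ \ X : Finset Ω),
      ((intoY X Y).filter fun π => π x' ∈ Y).card = (intoY (insert x X) Y).card := by
    intro x' hx'
    rw [mem_sdiff] at hx'
    refine card_bij' (fun π _ => (Equiv.swap x x').trans π) (fun π _ => (Equiv.swap x x').trans π)
      ?_ ?_ ?_ ?_
    · intro π hπ
      rw [mem_filter, intoY, mem_filter] at hπ
      rw [intoY, mem_filter]
      refine ⟨mem_univ _, fun z hz => ?_⟩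
      rw [mem_insert] at hz
      rcases hz with rfl | hz
      · simpa using hπ.2
      · rw [Equiv.trans_apply, swap_fix hx hx'.2 hz]
        exact hπ.1.2 z hz
    · intro π hπ
      rw [intoY, mem_filter] at hπ
      rw [mem_filter, intoY, mem_filter]
      refine ⟨⟨mem_univ _, fun z hz => ?_⟩, ?_⟩
      · rw [Equiv.trans_apply, swap_fix hx hx'.2 hz]
        exact hπ.2 z (mem_insert_of_mem hz)
      · rw [Equiv.trans_apply, Equiv.swap_apply_right]
        exact hπ.2 x (mem_insert_self _ _)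
    · intro π _
      ext z; simp
    · intro π _
      ext z; simp
  have h2 : ∀ π ∈ intoY X Y, ((univ \ X : Finset Ω).filter fun x' => π x' ∈ Y).card
      = Y.card - X.card := by
    intro π hπ
    rw [intoY, mem_filter] at hπ
    have h3 : ((univ \ X : Finset Ω).filter fun x' => π x' ∈ Y)
        = (Y.map π.symm.toEmbedding) \ X := by
      ext z
      simp only [mem_filter, mem_sdiff, mem_univ, true_and, mem_map, Equiv.coe_toEmbedding]
      constructor
      · rintro ⟨h4, h5⟩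
        exact ⟨⟨π z, h5, by simp⟩, h4⟩
      · rintro ⟨⟨w, hw, rfl⟩, h5⟩
        exact ⟨h5, by simpa using hw⟩
    rw [h3, card_sdiff_of_subset, card_map]
    intro z hz
    rw [mem_map]
    exact ⟨π z, hπ.2 z hz, by simp⟩
  have h3 : ∑ x' ∈ (univ \ X : Finset Ω), ((intoY X Y).filter fun π => π x' ∈ Y).card
      = ∑ π ∈ intoY X Y, ((univ \ X : Finset Ω).filter fun x' => π x' ∈ Y).card := by
    simp_rw [card_filter]
    rw [sum_comm]
  rw [sum_congr rfl h1, sum_congr rfl h2, sum_const, sum_const, smul_eq_mul, smul_eq_mul,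
    card_sdiff_of_subset (subset_univ X), card_univ] at h3
  rw [mul_comm, h3]

private lemma intoY_bound (X Y : Finset Ω) :
    (intoY X Y).card * (Fintype.card Ω) ^ X.card
      ≤ Y.card ^ X.card * (Fintype.card (Equiv.Perm Ω)) := by
  classical
  induction X using Finset.induction_on with
  | empty => simp [intoY, card_univ]
  | insert x X hx ih =>
    rw [card_insert_of_notMem hx]
    have h1 := intoY_step X Y x hx
    have hXlt : X.card < Fintype.card Ω := by
      have := card_lt_card (ssubset_insert hx)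
      have h2 := card_le_univ (insert x X)
      omega
    have hY : Y.card ≤ Fintype.card Ω := card_le_univ Y
    have aux : ∀ n k T : ℕ, k < T → n ≤ T → (n - k) * T ≤ n * (T - k) := by
      intro n k T hk hn
      rcases le_total n k with h | h
      · rw [Nat.sub_eq_zero_of_le h]; simp
      · obtain ⟨a, rfl⟩ := Nat.exists_eq_add_of_le h
        obtain ⟨c, rfl⟩ := Nat.exists_eq_add_of_lt hk
        have h3 : k + c + 1 - k = c + 1 := by omega
        rw [h3, Nat.add_sub_cancel_left]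
        nlinarith [hn]
    set T := Fintype.card Ω
    set k := X.card
    set n := Y.card
    -- (n - k) * T ≤ n * (T - k)
    have h2 : (n - k) * T ≤ n * (T - k) := aux n k T hXlt hY
    have h3 : (intoY (insert x X) Y).card * T ≤ (intoY X Y).card * n := by
      have h4 : ((intoY (insert x X) Y).card * T) * (T - k) ≤ ((intoY X Y).card * n) * (T - k) := by
        calc ((intoY (insert x X) Y).card * T) * (T - k)
            = ((intoY (insert x X) Y).card * (T - k)) * T := by ring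
          _ = ((intoY X Y).card * (n - k)) * T := by rw [h1]
          _ = (intoY X Y).card * ((n - k) * T) := by ring
          _ ≤ (intoY X Y).card * (n * (T - k)) := Nat.mul_le_mul_left _ h2
          _ = ((intoY X Y).card * n) * (T - k) := by ring
      exact Nat.le_of_mul_le_mul_right h4 (by omega)
    calc (intoY (insert x X) Y).card * T ^ (k + 1)
        = ((intoY (insert x X) Y).card * T) * T ^ k := by ring
      _ ≤ ((intoY X Y).card * n) * T ^ k := Nat.mul_le_mul_right _ h3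
      _ = ((intoY X Y).card * T ^ k) * n := by ring
      _ ≤ (n ^ k * Fintype.card (Equiv.Perm Ω)) * n := Nat.mul_le_mul_right _ ih
      _ = n ^ (k + 1) * Fintype.card (Equiv.Perm Ω) := by ring

/-- permutations mapping at least `m` elements of `X` into `Y` -/
def hitY (X Y : Finset Ω) (m : ℕ) : Finset (Equiv.Perm Ω) :=
  univ.filter fun π => m ≤ (X.filter fun x => π x ∈ Y).card

private lemma pow_le_four_pow (m : ℕ) : (m : ℝ) ^ m ≤ 4 ^ m * (m.factorial : ℝ) := by
  have h1 := Real.pow_div_factorial_le_exp (m : ℝ) (by positivity) m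
  have h2 : Real.exp (m : ℝ) ≤ 4 ^ m := by
    have h3 : Real.exp (m : ℝ) = (Real.exp 1) ^ m := by
      rw [← Real.exp_nat_mul]; simp
    rw [h3]
    refine pow_le_pow_left₀ (Real.exp_pos 1).le ?_ m
    have := Real.exp_one_lt_d9
    linarith
  have h3 : (0 : ℝ) < (m.factorial : ℝ) := by exact_mod_cast Nat.factorial_pos m
  rw [div_le_iff₀ h3] at h1
  calc (m : ℝ) ^ m ≤ Real.exp m * m.factorial := h1
    _ ≤ 4 ^ m * m.factorial := mul_le_mul_of_nonneg_right h2 h3.le

/-- few permutations map `m` elements of `X` into `Y` -/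
lemma hitY_bound (X Y : Finset Ω) (m : ℕ) (hT : 0 < Fintype.card Ω)
    (hXY : 16 * (X.card * Y.card) ≤ m * Fintype.card Ω) :
    (hitY X Y m).card * 4 ^ m ≤ Fintype.card (Equiv.Perm Ω) := by
  classical
  have h1 : hitY X Y m ⊆ (powersetCard m X).biUnion fun S => intoY S Y := by
    intro π hπ
    rw [hitY, mem_filter] at hπ
    obtain ⟨S, hS1, hS2⟩ := exists_subset_card_eq hπ.2
    rw [mem_biUnion]
    refine ⟨S, ?_, ?_⟩
    · rw [mem_powersetCard]
      exact ⟨fun z hz => (mem_filter.1 (hS1 hz)).1, hS2⟩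
    · rw [intoY, mem_filter]
      exact ⟨mem_univ _, fun z hz => (mem_filter.1 (hS1 hz)).2⟩
  set T := Fintype.card Ω
  set NP := Fintype.card (Equiv.Perm Ω)
  have h2 : (hitY X Y m).card * T ^ m ≤ (X.card.choose m) * (Y.card ^ m * NP) := by
    calc (hitY X Y m).card * T ^ m
        ≤ (∑ S ∈ powersetCard m X, (intoY S Y).card) * T ^ m :=
          Nat.mul_le_mul_right _ ((card_le_card h1).trans card_biUnion_le)
      _ = ∑ S ∈ powersetCard m X, (intoY S Y).card * T ^ m := by rw [sum_mul]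
      _ ≤ ∑ S ∈ powersetCard m X, Y.card ^ m * NP := by
          refine sum_le_sum fun S hS => ?_
          rw [mem_powersetCard] at hS
          have := intoY_bound S Y
          rwa [hS.2] at this
      _ = (X.card.choose m) * (Y.card ^ m * NP) := by
          rw [sum_const, card_powersetCard, smul_eq_mul]
  -- real computation
  have h3 : ((X.card.choose m : ℕ) : ℝ) * (m.factorial : ℝ) ≤ (X.card : ℝ) ^ m := by
    have h4 := Nat.choose_le_pow_div (α := ℝ) m X.card
    have h5 : (0 : ℝ) < (m.factorial : ℝ) := by exact_mod_cast Nat.factorial_pos m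
    rwa [le_div_iff₀ h5] at h4
  have h4 : ((hitY X Y m).card : ℝ) * (T : ℝ) ^ m
      ≤ (X.card.choose m : ℕ) * ((Y.card : ℝ) ^ m * NP) := by exact_mod_cast h2
  have hTR : (0 : ℝ) < T := by exact_mod_cast hT
  have hf : (0 : ℝ) < (m.factorial : ℝ) := by exact_mod_cast Nat.factorial_pos m
  have h5 : (16 : ℝ) ^ m * ((X.card : ℝ) ^ m * (Y.card : ℝ) ^ m) ≤ (m : ℝ) ^ m * (T : ℝ) ^ m := by
    have h6 : (16 : ℝ) * ((X.card : ℝ) * Y.card) ≤ m * T := by exact_mod_cast hXY
    have h7 := pow_le_pow_left₀ (by positivity) h6 m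
    calc (16 : ℝ) ^ m * ((X.card : ℝ) ^ m * (Y.card : ℝ) ^ m)
        = (16 * ((X.card : ℝ) * Y.card)) ^ m := by rw [mul_pow, mul_pow]
      _ ≤ (m * T : ℝ) ^ m := h7
      _ = (m : ℝ) ^ m * (T : ℝ) ^ m := by rw [mul_pow]
  have h6 := pow_le_four_pow m
  have h7 : ((hitY X Y m).card : ℝ) * 4 ^ m ≤ NP := by
    have hpos : (0 : ℝ) < (T : ℝ) ^ m * m.factorial * 4 ^ m := by positivity
    refine le_of_mul_le_mul_right ?_ hpos
    have e16 : (16 : ℝ) ^ m = 4 ^ m * 4 ^ m := by
      rw [← mul_pow]; norm_num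
    have hNP : (0 : ℝ) ≤ NP := by positivity
    calc ((hitY X Y m).card : ℝ) * 4 ^ m * ((T : ℝ) ^ m * m.factorial * 4 ^ m)
        = (((hitY X Y m).card : ℝ) * (T : ℝ) ^ m) * (m.factorial * 16 ^ m) := by
          rw [e16]; ring
      _ ≤ ((X.card.choose m : ℕ) * ((Y.card : ℝ) ^ m * NP)) * (m.factorial * 16 ^ m) :=
          mul_le_mul_of_nonneg_right h4 (by positivity)
      _ = (((X.card.choose m : ℕ) : ℝ) * m.factorial) * ((Y.card : ℝ) ^ m * NP * 16 ^ m) := by ring
      _ ≤ ((X.card : ℝ) ^ m) * ((Y.card : ℝ) ^ m * NP * 16 ^ m) :=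
          mul_le_mul_of_nonneg_right h3 (by positivity)
      _ = ((16 : ℝ) ^ m * ((X.card : ℝ) ^ m * (Y.card : ℝ) ^ m)) * NP := by ring
      _ ≤ ((m : ℝ) ^ m * (T : ℝ) ^ m) * NP := mul_le_mul_of_nonneg_right h5 hNP
      _ ≤ ((4 ^ m * (m.factorial : ℝ)) * (T : ℝ) ^ m) * NP := by
          refine mul_le_mul_of_nonneg_right (mul_le_mul_of_nonneg_right h6 (by positivity)) hNP
      _ = NP * ((T : ℝ) ^ m * m.factorial * 4 ^ m) := by ring
  exact_mod_cast h7

end hit

/-- the number of `(p,b)` which are at the unit with the high part `a` and the low part `s` after stage `j` -/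
def NN (Z Q : ℕ) (π : Equiv.Perm (Fin (2 ^ (Z * Q)) × Fin (2 ^ Q))) (δ : ℕ → Option ℕ) (j a s : ℕ) : ℕ :=
  (univ.filter fun x : Fin (2 ^ (Z * Q)) × Fin (2 ^ Q) =>
    (∃ t, δ x.1.val = some t ∧ t / 2 ^ ((Z - j) * Q) = a) ∧ (π x).1.val % 2 ^ ((Z - j) * Q) = s).card

/-- a layer is bad -/
def BadLayer (Z Q c1 : ℕ) (π : Equiv.Perm (Fin (2 ^ (Z * Q)) × Fin (2 ^ Q))) (δ : ℕ → Option ℕ) : Prop :=
  ∃ j a s, j < Z ∧ a < 2 ^ (j * Q) ∧ s < 2 ^ ((Z - j) * Q) ∧ 2 ^ (Q - c1) < NN Z Q π δ j a s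

/-- the density hypothesis (D); `j = 0`, `a = 0` is the bound for the domain -/
def DensD (Z Q c1 : ℕ) (δ : ℕ → Option ℕ) : Prop :=
  ∀ j, j < Z → ∀ a, 2 ^ (c1 + 4) *
    ((range (2 ^ (Z * Q))).filter fun p => ∃ t, δ p = some t ∧ t / 2 ^ ((Z - j) * Q) = a).card
      ≤ 2 ^ ((Z - j) * Q)

private lemma card_suffix (Z Q j s : ℕ) (hj : j ≤ Z) :
    (univ.filter fun x : Fin (2 ^ (Z * Q)) × Fin (2 ^ Q) =>
      x.1.val % 2 ^ ((Z - j) * Q) = s).card ≤ 2 ^ (j * Q) * 2 ^ Q := by
  classical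
  have h1 : (univ.filter fun x : Fin (2 ^ (Z * Q)) × Fin (2 ^ Q) =>
      x.1.val % 2 ^ ((Z - j) * Q) = s).card
      ≤ ((range (2 ^ (j * Q))) ×ˢ (range (2 ^ Q))).card := by
    refine card_le_card_of_injOn (fun x => (x.1.val / 2 ^ ((Z - j) * Q), x.2.val)) ?_ ?_
    · rintro ⟨u, b⟩ _
      simp only [coe_product, coe_range, Set.mem_prod, Set.mem_Iio]
      refine ⟨?_, b.isLt⟩
      rw [Nat.div_lt_iff_lt_mul (by positivity), ← pow_add, ← Nat.add_mul, Nat.add_sub_cancel' hj]
      exact u.isLt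
    · rintro ⟨u, b⟩ hu ⟨v, c⟩ hv huv
      have hu' : u.val % 2 ^ ((Z - j) * Q) = s := by simpa using hu
      have hv' : v.val % 2 ^ ((Z - j) * Q) = s := by simpa using hv
      simp only [Prod.mk.injEq] at huv
      obtain ⟨h1, h2⟩ := huv
      have h3 : u.val = v.val := by
        rw [← Nat.div_add_mod u.val (2 ^ ((Z - j) * Q)), ← Nat.div_add_mod v.val (2 ^ ((Z - j) * Q)),
          h1, hu', hv']
      rw [Prod.mk.injEq]
      exact ⟨Fin.ext h3, Fin.ext h2⟩
  rwa [card_product, card_range, card_range] at h1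

/-- few permutations are bad for a given `δ` -/
private lemma bad_bound (Z Q c1 m : ℕ) (hc1 : c1 ≤ Q) (hm : m = 2 ^ (Q - c1) + 1)
    (hZ : Z * 2 ^ (Z * Q) ≤ 2 ^ m) (δ : ℕ → Option ℕ) (hδ : DensD Z Q c1 δ)
    (B : Finset (Equiv.Perm (Fin (2 ^ (Z * Q)) × Fin (2 ^ Q))))
    (hB : ∀ π ∈ B, BadLayer Z Q c1 π δ) :
    B.card * 2 ^ m ≤ Fintype.card (Equiv.Perm (Fin (2 ^ (Z * Q)) × Fin (2 ^ Q))) := by
  classical
  set NP := Fintype.card (Equiv.Perm (Fin (2 ^ (Z * Q)) × Fin (2 ^ Q))) with hNP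
  let XX : ℕ → ℕ → Finset (Fin (2 ^ (Z * Q)) × Fin (2 ^ Q)) := fun j P =>
    univ.filter fun x => ∃ t, δ x.1.val = some t ∧ t / 2 ^ ((Z - j) * Q) = P / 2 ^ ((Z - j) * Q)
  let YY : ℕ → ℕ → Finset (Fin (2 ^ (Z * Q)) × Fin (2 ^ Q)) := fun j P =>
    univ.filter fun x => x.1.val % 2 ^ ((Z - j) * Q) = P % 2 ^ ((Z - j) * Q)
  have hsub : B ⊆ ((range Z) ×ˢ (range (2 ^ (Z * Q)))).biUnion
      fun jP => hitY (XX jP.1 jP.2) (YY jP.1 jP.2) m := by
    intro π hπ
    obtain ⟨j, a, s, hj, ha, hs, hP⟩ := hB π hπ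
    rw [mem_biUnion]
    have e1 : (a * 2 ^ ((Z - j) * Q) + s) / 2 ^ ((Z - j) * Q) = a := by
      rw [mul_comm, Nat.mul_add_div (by positivity), Nat.div_eq_of_lt hs, add_zero]
    have e2 : (a * 2 ^ ((Z - j) * Q) + s) % 2 ^ ((Z - j) * Q) = s := by
      rw [mul_comm, Nat.mul_add_mod, Nat.mod_eq_of_lt hs]
    refine ⟨(j, a * 2 ^ ((Z - j) * Q) + s), ?_, ?_⟩
    · rw [mem_product, mem_range, mem_range]
      refine ⟨hj, ?_⟩
      have h1 : 2 ^ (Z * Q) = 2 ^ (j * Q) * 2 ^ ((Z - j) * Q) := by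
        rw [← pow_add, ← Nat.add_mul, Nat.add_sub_cancel' hj.le]
      rw [h1]
      have h2 : (a + 1) * 2 ^ ((Z - j) * Q) ≤ 2 ^ (j * Q) * 2 ^ ((Z - j) * Q) :=
        Nat.mul_le_mul_right _ ha
      nlinarith
    · rw [hitY, mem_filter]
      refine ⟨mem_univ _, ?_⟩
      have h1 : NN Z Q π δ j a s = ((XX j (a * 2 ^ ((Z - j) * Q) + s)).filter
          fun x => π x ∈ YY j (a * 2 ^ ((Z - j) * Q) + s)).card := by
        unfold NN
        congr 1
        ext x
        simp only [XX, YY, mem_filter, mem_univ, true_and, e1, e2]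
      rw [← h1, hm]
      exact hP
  have hcardΩ : Fintype.card (Fin (2 ^ (Z * Q)) × Fin (2 ^ Q)) = 2 ^ (Z * Q) * 2 ^ Q := by
    rw [Fintype.card_prod, Fintype.card_fin, Fintype.card_fin]
  have hT : 0 < Fintype.card (Fin (2 ^ (Z * Q)) × Fin (2 ^ Q)) := by
    rw [hcardΩ]; positivity
  have h4 : ∀ jP ∈ ((range Z) ×ˢ (range (2 ^ (Z * Q)))),
      (hitY (XX jP.1 jP.2) (YY jP.1 jP.2) m).card * 4 ^ m ≤ NP := by
    rintro ⟨j, P⟩ hjP
    have hj : j < Z := by
      rw [mem_product, mem_range] at hjP; exact hjP.1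
    refine hitY_bound _ _ m hT ?_
    rw [hcardΩ]
    have hX : (XX j P).card = ((range (2 ^ (Z * Q))).filter fun p =>
        ∃ t, δ p = some t ∧ t / 2 ^ ((Z - j) * Q) = P / 2 ^ ((Z - j) * Q)).card * 2 ^ Q := by
      have h5 : (XX j P).card = (((range (2 ^ (Z * Q))).filter fun p =>
        ∃ t, δ p = some t ∧ t / 2 ^ ((Z - j) * Q) = P / 2 ^ ((Z - j) * Q)) ×ˢ range (2 ^ Q)).card := by
        refine card_bij' (fun x _ => (x.1.val, x.2.val))
          (fun x _ => (⟨x.1 % 2 ^ (Z * Q), Nat.mod_lt _ (by positivity)⟩,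
            ⟨x.2 % 2 ^ Q, Nat.mod_lt _ (by positivity)⟩)) ?_ ?_ ?_ ?_
        · rintro ⟨u, b⟩ hx
          simp only [XX, mem_filter, mem_univ, true_and] at hx
          simp only [mem_product, mem_filter, mem_range]
          exact ⟨⟨u.isLt, hx⟩, b.isLt⟩
        · rintro ⟨u, b⟩ hx
          simp only [mem_product, mem_filter, mem_range] at hx
          simp only [XX, mem_filter, mem_univ, true_and]
          rw [Nat.mod_eq_of_lt hx.1.1]
          exact hx.1.2
        · rintro ⟨u, b⟩ hx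
          simp only [Prod.mk.injEq]
          exact ⟨Fin.ext (Nat.mod_eq_of_lt u.isLt), Fin.ext (Nat.mod_eq_of_lt b.isLt)⟩
        · rintro ⟨u, b⟩ hx
          simp only [mem_product, mem_filter, mem_range] at hx
          simp only [Prod.mk.injEq]
          exact ⟨Nat.mod_eq_of_lt hx.1.1, Nat.mod_eq_of_lt hx.2⟩
      rw [h5, card_product, card_range]
    have hY : (YY j P).card ≤ 2 ^ (j * Q) * 2 ^ Q := card_suffix Z Q j _ hj.le
    have hD := hδ j hj (P / 2 ^ ((Z - j) * Q))
    rw [hX]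
    set XC := ((range (2 ^ (Z * Q))).filter fun p =>
        ∃ t, δ p = some t ∧ t / 2 ^ ((Z - j) * Q) = P / 2 ^ ((Z - j) * Q)).card with hXC
    have hmm : 2 ^ Q ≤ 2 ^ c1 * m := by
      have : 2 ^ Q = 2 ^ c1 * 2 ^ (Q - c1) := by rw [← pow_add]; congr 1; omega
      rw [this, hm]
      exact Nat.mul_le_mul_left _ (Nat.le_succ _)
    have h5 : 2 ^ c1 * (16 * (XC * 2 ^ Q * (YY j P).card))
        ≤ 2 ^ c1 * (m * (2 ^ (Z * Q) * 2 ^ Q)) := by
      calc 2 ^ c1 * (16 * (XC * 2 ^ Q * (YY j P).card))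
          = (2 ^ (c1 + 4) * XC) * (2 ^ Q * (YY j P).card) := by
            rw [pow_add]; ring
        _ ≤ 2 ^ ((Z - j) * Q) * (2 ^ Q * (2 ^ (j * Q) * 2 ^ Q)) :=
            Nat.mul_le_mul hD (Nat.mul_le_mul_left _ hY)
        _ = 2 ^ Q * (2 ^ (Z * Q) * 2 ^ Q) := by
            have : 2 ^ (Z * Q) = 2 ^ ((Z - j) * Q) * 2 ^ (j * Q) := by
              rw [← pow_add, ← Nat.add_mul, Nat.sub_add_cancel hj.le]
            rw [this]; ring
        _ ≤ (2 ^ c1 * m) * (2 ^ (Z * Q) * 2 ^ Q) := Nat.mul_le_mul_right _ hmm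
        _ = 2 ^ c1 * (m * (2 ^ (Z * Q) * 2 ^ Q)) := by ring
    exact Nat.le_of_mul_le_mul_left h5 (by positivity)
  have h5 : B.card * 4 ^ m ≤ (Z * 2 ^ (Z * Q)) * NP := by
    calc B.card * 4 ^ m
        ≤ (∑ jP ∈ ((range Z) ×ˢ (range (2 ^ (Z * Q)))),
            (hitY (XX jP.1 jP.2) (YY jP.1 jP.2) m).card) * 4 ^ m :=
          Nat.mul_le_mul_right _ ((card_le_card hsub).trans card_biUnion_le)
      _ = ∑ jP ∈ ((range Z) ×ˢ (range (2 ^ (Z * Q)))),
            (hitY (XX jP.1 jP.2) (YY jP.1 jP.2) m).card * 4 ^ m := by rw [sum_mul]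
      _ ≤ ∑ jP ∈ ((range Z) ×ˢ (range (2 ^ (Z * Q)))), NP := sum_le_sum h4
      _ = (Z * 2 ^ (Z * Q)) * NP := by
          rw [sum_const, smul_eq_mul, card_product, card_range, card_range]
  have h6 : (B.card * 2 ^ m) * 2 ^ m ≤ NP * 2 ^ m := by
    calc (B.card * 2 ^ m) * 2 ^ m = B.card * 4 ^ m := by
          rw [show (4 : ℕ) = 2 * 2 by norm_num, mul_pow]; ring
      _ ≤ (Z * 2 ^ (Z * Q)) * NP := h5
      _ ≤ 2 ^ m * NP := Nat.mul_le_mul_right _ hZ
      _ = NP * 2 ^ m := by ring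
  exact Nat.le_of_mul_le_mul_right h6 (by positivity)

/-- **E1.**  There are permutations `π l` of the places such that for every `δ` with (D) fewer than
`2 ^ (Z * Q)` of the layers `l < 2 ^ g` are bad. -/
theorem e1 (Z Q c1 g y : ℕ) (hy : Z * Q + Q + g ≤ y) (hG : 2 ^ c1 * (y + 2) ≤ 2 ^ Q) :
    ∃ π : ℕ → Equiv.Perm (Fin (2 ^ (Z * Q)) × Fin (2 ^ Q)),
      ∀ δ : ℕ → Option ℕ, (∀ p, p < 2 ^ (Z * Q) → ∀ t, δ p = some t → t < 2 ^ (Z * Q)) →
        DensD Z Q c1 δ → ∀ S : Finset ℕ, (∀ l ∈ S, l < 2 ^ g ∧ BadLayer Z Q c1 (π l) δ) →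
          S.card < 2 ^ (Z * Q) := by
  classical
  have hc1 : c1 ≤ Q := by
    by_contra h
    rw [not_le] at h
    have h1 : 2 ^ Q < 2 ^ c1 := Nat.pow_lt_pow_right (by norm_num) h
    nlinarith [Nat.mul_le_mul_left (2 ^ c1) (show 1 ≤ y + 2 by omega)]
  set m := 2 ^ (Q - c1) + 1 with hm
  have hmy : y + 3 ≤ m := by
    have h1 : 2 ^ Q = 2 ^ c1 * 2 ^ (Q - c1) := by rw [← pow_add]; congr 1; omega
    rw [h1] at hG
    have := Nat.le_of_mul_le_mul_left hG (by positivity)
    omega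
  have hQ : 1 ≤ Q := by
    by_contra h0
    have h1 : Q = 0 := by omega
    subst h1
    have h2 : 1 ≤ 2 ^ c1 := Nat.one_le_two_pow
    rw [pow_zero] at hG
    nlinarith
  have hZQ : Z ≤ 2 ^ Q := by
    have h1 : 1 ≤ 2 ^ c1 := Nat.one_le_two_pow
    nlinarith [Nat.mul_le_mul_left Z hQ]
  have hZ : Z * 2 ^ (Z * Q) ≤ 2 ^ m := by
    calc Z * 2 ^ (Z * Q) ≤ 2 ^ Q * 2 ^ (Z * Q) := Nat.mul_le_mul_right _ hZQ
      _ = 2 ^ (Q + Z * Q) := by rw [← pow_add]
      _ ≤ 2 ^ m := Nat.pow_le_pow_right (by norm_num) (by omega)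
  set F := 2 ^ (Z * Q) with hF
  have hFpos : 0 < F := by positivity
  set NP := Fintype.card (Equiv.Perm (Fin F × Fin (2 ^ Q))) with hNP
  have hNPpos : 0 < NP := Fintype.card_pos
  -- δ restricted to Fin F
  let ex : (Fin F → Option (Fin F)) → (ℕ → Option ℕ) := fun d p =>
    if h : p < F then (d ⟨p, h⟩).map Fin.val else none
  let BB : (Fin F → Option (Fin F)) → Finset (Equiv.Perm (Fin F × Fin (2 ^ Q))) := fun d =>
    univ.filter fun π => DensD Z Q c1 (ex d) ∧ BadLayer Z Q c1 π (ex d)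
  have hBB : ∀ d, (BB d).card * 2 ^ m ≤ NP := by
    intro d
    by_cases hd : DensD Z Q c1 (ex d)
    · refine bad_bound Z Q c1 m hc1 hm hZ (ex d) hd (BB d) ?_
      intro π hπ
      exact (mem_filter.1 hπ).2.2
    · have : BB d = ∅ := by
        rw [filter_eq_empty_iff]
        intro π _ h
        exact hd h.1
      rw [this]; simp
  let L := Fin (2 ^ g)
  have hL : Fintype.card L = 2 ^ g := Fintype.card_fin _
  let Fam : (Fin F → Option (Fin F)) → Finset L →
      Finset (L → Equiv.Perm (Fin F × Fin (2 ^ Q))) := fun δ S =>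
    Fintype.piFinset fun l => if l ∈ S then BB δ else univ
  have hFam : ∀ δ, ∀ S ∈ powersetCard F (univ : Finset L),
      (Fam δ S).card * 2 ^ (m * F) ≤ NP ^ (Fintype.card L) := by
    intro δ S hS
    rw [mem_powersetCard] at hS
    simp only [Fam]
    rw [Fintype.card_piFinset]
    have h1 : ∏ l : L, (if l ∈ S then BB δ else univ).card
        = (BB δ).card ^ F * NP ^ (Fintype.card L - F) := by
      have h2 : ∀ l : L, (if l ∈ S then BB δ else univ).card
          = if l ∈ S then (BB δ).card else NP := by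
        intro l; split_ifs
        · rfl
        · exact card_univ
      rw [prod_congr rfl fun l _ => h2 l, prod_ite, prod_const, prod_const]
      congr 2
      · rw [filter_mem_eq_inter, univ_inter, hS.2]
      · rw [filter_not, filter_mem_eq_inter, univ_inter, card_sdiff_of_subset (subset_univ S),
          card_univ, hS.2]
    rw [h1]
    have h2 : F ≤ Fintype.card L := by
      rw [← hS.2, ← card_univ]; exact card_le_card hS.1
    calc (BB δ).card ^ F * NP ^ (Fintype.card L - F) * 2 ^ (m * F)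
        = ((BB δ).card * 2 ^ m) ^ F * NP ^ (Fintype.card L - F) := by
          rw [mul_pow, pow_mul]; ring
      _ ≤ NP ^ F * NP ^ (Fintype.card L - F) :=
          Nat.mul_le_mul_right _ (Nat.pow_le_pow_left (hBB δ) F)
      _ = NP ^ (Fintype.card L) := by rw [← pow_add]; congr 1; omega
  set pairs := (univ : Finset (Fin F → Option (Fin F))) ×ˢ
    powersetCard F (univ : Finset L) with hpairs
  have hcardpairs : pairs.card ≤ ((F + 1) * 2 ^ g) ^ F := by
    rw [hpairs, card_product, card_univ, Fintype.card_fun, Fintype.card_option,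
      Fintype.card_fin, card_powersetCard, card_univ, mul_pow]
    refine Nat.mul_le_mul_left _ ?_
    calc (Fintype.card L).choose F ≤ (Fintype.card L) ^ F := Nat.choose_le_pow _ _
      _ = (2 ^ g) ^ F := by rw [hL]
  have hlt : (F + 1) * 2 ^ g < 2 ^ m := by
    have h1 : F + 1 ≤ 2 ^ (Z * Q + 1) := by
      rw [pow_succ]
      have : 1 ≤ 2 ^ (Z * Q) := Nat.one_le_two_pow
      omega
    calc (F + 1) * 2 ^ g ≤ 2 ^ (Z * Q + 1) * 2 ^ g := Nat.mul_le_mul_right _ h1
      _ = 2 ^ (Z * Q + 1 + g) := by rw [← pow_add]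
      _ < 2 ^ m := Nat.pow_lt_pow_right (by norm_num) (by omega)
  have hunion : (pairs.biUnion fun x => Fam x.1 x.2).card < NP ^ (Fintype.card L) := by
    have h1 : (pairs.biUnion fun x => Fam x.1 x.2).card * 2 ^ (m * F)
        ≤ pairs.card * NP ^ (Fintype.card L) := by
      calc (pairs.biUnion fun x => Fam x.1 x.2).card * 2 ^ (m * F)
          ≤ (∑ x ∈ pairs, (Fam x.1 x.2).card) * 2 ^ (m * F) :=
            Nat.mul_le_mul_right _ card_biUnion_le
        _ = ∑ x ∈ pairs, (Fam x.1 x.2).card * 2 ^ (m * F) := by rw [sum_mul]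
        _ ≤ ∑ x ∈ pairs, NP ^ (Fintype.card L) := by
            refine sum_le_sum fun x hx => ?_
            rw [hpairs, mem_product] at hx
            exact hFam x.1 x.2 hx.2
        _ = pairs.card * NP ^ (Fintype.card L) := by rw [sum_const, smul_eq_mul]
    have h2 : pairs.card < 2 ^ (m * F) := by
      rw [pow_mul]
      exact hcardpairs.trans_lt (Nat.pow_lt_pow_left hlt hFpos.ne')
    have h3 : 0 < NP ^ (Fintype.card L) := by positivity
    have h4 : (pairs.biUnion fun x => Fam x.1 x.2).card * 2 ^ (m * F)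
        < NP ^ (Fintype.card L) * 2 ^ (m * F) := by
      refine h1.trans_lt ?_
      rw [mul_comm]
      exact Nat.mul_lt_mul_of_pos_left h2 h3
    exact Nat.lt_of_mul_lt_mul_right h4
  have hex : ∃ π : L → Equiv.Perm (Fin F × Fin (2 ^ Q)),
      π ∉ pairs.biUnion fun x => Fam x.1 x.2 := by
    by_contra hcon
    push Not at hcon
    have h1 : (univ : Finset (L → Equiv.Perm (Fin F × Fin (2 ^ Q))))
        ⊆ pairs.biUnion fun x => Fam x.1 x.2 := fun π _ => hcon π
    have h2 := card_le_card h1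
    rw [card_univ, Fintype.card_fun] at h2
    exact absurd hunion (not_lt.2 h2)
  obtain ⟨π, hπ⟩ := hex
  refine ⟨fun l => if h : l < 2 ^ g then π ⟨l, h⟩ else 1, fun δ hδ hD S hS => ?_⟩
  by_contra hcon
  rw [not_lt] at hcon
  obtain ⟨S', hS'1, hS'2⟩ := exists_subset_card_eq hcon
  -- the restriction of δ
  let d : Fin F → Option (Fin F) := fun p =>
    (δ p.val).bind fun t => if h : t < F then some ⟨t, h⟩ else none
  have hexd : ∀ p, p < F → ex d p = δ p := by
    intro p hp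
    rcases h : δ p with _ | t
    · simp [ex, hp, d, h]
    · have ht : t < F := hδ p hp t h
      have e1 : d ⟨p, hp⟩ = some ⟨t, ht⟩ := by
        simp only [d, h, Option.bind_some, dif_pos ht]
      simp only [ex, dif_pos hp, e1, Option.map_some]
  have hDd : DensD Z Q c1 (ex d) := by
    intro j hj a
    have h1 := hD j hj a
    have h2 : ((range (2 ^ (Z * Q))).filter fun p => ∃ t, ex d p = some t ∧ t / 2 ^ ((Z - j) * Q) = a)
        = ((range (2 ^ (Z * Q))).filter fun p => ∃ t, δ p = some t ∧ t / 2 ^ ((Z - j) * Q) = a) := by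
      refine filter_congr fun p hp => ?_
      rw [hexd p (mem_range.1 hp)]
    rw [h2]; exact h1
  have hNN : ∀ (ρ : Equiv.Perm (Fin F × Fin (2 ^ Q))), BadLayer Z Q c1 ρ δ → BadLayer Z Q c1 ρ (ex d) := by
    rintro ρ ⟨j, a, s, h1, h2, h3, h4⟩
    refine ⟨j, a, s, h1, h2, h3, ?_⟩
    have h5 : NN Z Q ρ (ex d) j a s = NN Z Q ρ δ j a s := by
      unfold NN
      congr 1
      refine filter_congr fun x _ => ?_
      rw [hexd x.1.val x.1.isLt]
    rw [h5]; exact h4
  let SL : Finset L := univ.filter fun l => l.val ∈ S'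
  have hSL : SL.card = F := by
    refine Eq.trans ?_ hS'2
    refine card_bij' (fun l _ => l.val) (fun l hl => (⟨l % 2 ^ g, Nat.mod_lt _ (by positivity)⟩ : L))
      ?_ ?_ ?_ ?_
    · intro l hl; exact (mem_filter.1 hl).2
    · intro l hl
      have h1 := (hS l (hS'1 hl)).1
      simp only [SL, mem_filter, mem_univ, true_and]
      rw [Nat.mod_eq_of_lt h1]; exact hl
    · intro l _; exact Fin.ext (Nat.mod_eq_of_lt l.isLt)
    · intro l hl; exact Nat.mod_eq_of_lt (hS l (hS'1 hl)).1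
  apply hπ
  rw [mem_biUnion]
  refine ⟨(d, SL), ?_, ?_⟩
  · rw [hpairs, mem_product, mem_powersetCard]
    exact ⟨mem_univ _, subset_univ _, hSL⟩
  · simp only [Fam]
    rw [Fintype.mem_piFinset]
    intro l
    split_ifs with hl
    · have h1 := hS l.val (hS'1 (mem_filter.1 hl).2)
      simp only [BB, mem_filter, mem_univ, true_and]
      refine ⟨hDd, hNN _ ?_⟩
      have h2 := h1.2
      simp only [l.isLt, dif_pos] at h2
      exact h2
    · exact mem_univ _

end H69.HS
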