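import Mathlib
import Pool.Agent.H31.HS.Srt

/-!
# COLUMNSORT: ranks, counting form of sorting, sorting in one round (helper69)
-/

set_option autoImplicit false

namespace H69.HS

open Finset Classical Pool.Agent.H31.HS

/-! ### ranks -/

/-- number of smaller values -/
noncomputable def rk (n : ℕ) (f : ℕ → WithTop ℕ) (i : ℕ) : ℕ := ((range n).filter fun j => f j < f i).card

lemma rk_lt {n : ℕ} {f : ℕ → WithTop ℕ} {i : ℕ} (hi : i < n) : rk n f i < n := by
  have h1 : (range n).filter (fun j => f j < f i) ⊆ (range n).erase i := by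
    intro j hj
    rw [mem_filter] at hj
    rw [mem_erase]
    exact ⟨fun h => by rw [h] at hj; exact lt_irrefl _ hj.2, hj.1⟩
  have h2 := card_le_card h1
  rw [card_erase_of_mem (mem_range.2 hi), card_range] at h2
  unfold rk
  omega

lemma rk_mono {n : ℕ} {f : ℕ → WithTop ℕ} {i j : ℕ} (hi : i < n) (h : f i < f j) :
    rk n f i < rk n f j := by
  refine card_lt_card ?_
  rw [ssubset_iff_of_subset]
  · refine ⟨i, ?_, ?_⟩
    · rw [mem_filter, mem_range]; exact ⟨hi, h⟩
    · rw [mem_filter]; exact fun h' => lt_irrefl _ h'.2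
  · intro z hz
    rw [mem_filter] at hz ⊢
    exact ⟨hz.1, hz.2.trans h⟩

lemma rk_surj {n : ℕ} {f : ℕ → WithTop ℕ} (hinj : ∀ i, i < n → ∀ j, j < n → f i ≠ ⊤ → f i = f j → i = j)
    {i p : ℕ} (hp : p < rk n f i) : ∃ j, j < n ∧ f j ≠ ⊤ ∧ rk n f j = p ∧ f j < f i := by
  set A := (range n).filter fun j => f j < f i with hA
  have h1 : A.image (rk n f) ⊆ range (rk n f i) := by
    intro z hz
    rw [mem_image] at hz
    obtain ⟨j, hj, rfl⟩ := hz
    rw [hA, mem_filter, mem_range] at hj
    exact mem_range.2 (rk_mono hj.1 hj.2)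
  have h2 : Set.InjOn (rk n f) A := by
    intro j hj j' hj' he
    rw [mem_coe, hA, mem_filter, mem_range] at hj hj'
    rcases lt_trichotomy (f j) (f j') with h | h | h
    · have := rk_mono hj.1 h; omega
    · exact hinj j hj.1 j' hj'.1 (ne_top_of_lt hj.2) h
    · have := rk_mono hj'.1 h; omega
  have h3 : A.image (rk n f) = range (rk n f i) := by
    refine eq_of_subset_of_card_le h1 ?_
    rw [card_image_of_injOn h2, card_range]
    exact le_rfl
  have h4 : p ∈ A.image (rk n f) := by rw [h3]; exact mem_range.2 hp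
  rw [mem_image] at h4
  obtain ⟨j, hj, hj'⟩ := h4
  rw [hA, mem_filter, mem_range] at hj
  exact ⟨j, hj.1, ne_top_of_lt hj.2, hj', hj.2⟩

lemma rk_inj {n : ℕ} {f : ℕ → WithTop ℕ} (hinj : ∀ i, i < n → ∀ j, j < n → f i ≠ ⊤ → f i = f j → i = j)
    {i j : ℕ} (hi : i < n) (hj : j < n) (hti : f i ≠ ⊤) (h : rk n f i = rk n f j) : i = j := by
  rcases lt_trichotomy (f i) (f j) with h' | h' | h'
  · have := rk_mono hi h'; omega
  · exact hinj i hi j hj hti h'
  · have := rk_mono hj h'; omega

/-- a downward closed set of numbers -/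
lemma mem_iff_lt_card {S : Finset ℕ} (h : ∀ i ∈ S, ∀ j, j ≤ i → j ∈ S) (i : ℕ) : i ∈ S ↔ i < S.card := by
  constructor
  · intro hi
    have h1 : range (i + 1) ⊆ S := fun j hj => h i hi j (by rw [mem_range] at hj; omega)
    have h2 := card_le_card h1
    rw [card_range] at h2
    omega
  · intro hi
    by_contra hn
    have h1 : S ⊆ range i := by
      intro j hj
      rw [mem_range]
      by_contra hji
      exact hn (h j hj i (by omega))
    have h2 := card_le_card h1
    rw [card_range] at h2
    omega

variable {V Ω R X : Type} {m : ℕ}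

lemma kv_ne_top {key : X × Option R → ℕ} {x : Option X × Option R} : kv key x ≠ ⊤ ↔ x.1.isSome = true := by
  unfold kv
  rcases h : x.1 with _ | l
  · simp
  · simp

lemma kv_active {key : X × Option R → ℕ} {x : Option X × Option R} (h : x.1.isSome = true) :
    ∃ t : ℕ, kv key x = (t : WithTop ℕ) := by
  unfold kv
  rcases h' : x.1 with _ | l
  · rw [h'] at h; simp at h
  · exact ⟨_, rfl⟩

lemma sorted_lt {B : Blk V m} {key : X × Option R → ℕ} {b : V → Option X × Option R}
    (h : RunSorted B key m b) {v u : V} (hc : B.cls v u) (hp : B.pos v < B.pos u)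
    (hu : (b u).1.isSome = true) : kv key (b v) < kv key (b u) := by
  refine h v u hc ?_ hp hu
  rw [Nat.div_eq_of_lt (B.pos_lt v), Nat.div_eq_of_lt (B.pos_lt u)]

/-- counting form of sorting -/
lemma count_of_sort (B : Blk V m) (key : X × Option R → ℕ) (a b : V → Option X × Option R)
    (hD : Dist B key a) (hS : SortSpec B key a b) (v : V) (t : ℕ) (i : ℕ) (hi : i < 2 ^ m) :
    kv key (b (B.nd v i)) ≤ (t : WithTop ℕ) ↔
      i < ((range (2 ^ m)).filter fun j => kv key (a (B.nd v j)) ≤ (t : WithTop ℕ)).card := by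
  obtain ⟨h1, h2, h3, h4⟩ := hS
  haveI : Nonempty V := ⟨v⟩
  have hact : ∀ x : Option X × Option R, kv key x ≤ (t : WithTop ℕ) → x.1.isSome = true := by
    intro x hx
    exact kv_ne_top.1 (ne_top_of_le_ne_top (WithTop.coe_ne_top) hx)
  set Sb := (range (2 ^ m)).filter fun j => kv key (b (B.nd v j)) ≤ (t : WithTop ℕ) with hSb
  set Sa := (range (2 ^ m)).filter fun j => kv key (a (B.nd v j)) ≤ (t : WithTop ℕ) with hSa
  have hcls : ∀ j j', j < 2 ^ m → j' < 2 ^ m → B.cls (B.nd v j) (B.nd v j') := by
    intro j j' hj hj'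
    exact B.cls_trans (B.cls_symm (B.cls_nd v hj)) (B.cls_nd v hj')
  have hdown : ∀ j ∈ Sb, ∀ j', j' ≤ j → j' ∈ Sb := by
    intro j hj j' hj'
    rw [hSb, mem_filter, mem_range] at hj ⊢
    refine ⟨by omega, ?_⟩
    rcases Nat.eq_or_lt_of_le hj' with e | e
    · rw [e]; exact hj.2
    · have := sorted_lt h4 (hcls j' j (by omega) hj.1)
        (by rw [B.pos_nd v _ (by omega), B.pos_nd v _ hj.1]; exact e) (hact _ hj.2)
      exact this.le.trans hj.2
  have hle1 : Sb.card ≤ Sa.card := by
    have hch : ∀ j ∈ Sb, ∃ u, B.cls (B.nd v j) u ∧ b (B.nd v j) = a u := by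
      intro j hj
      rw [hSb, mem_filter] at hj
      exact h1 _ (hact _ hj.2)
    choose! g hg1 hg2 using hch
    refine card_le_card_of_injOn (fun j => B.pos (g j)) ?_ ?_
    · intro j hj
      have hj' := mem_coe.1 hj
      have e1 := hg1 j hj'
      have e2 := hg2 j hj'
      rw [hSb, mem_filter, mem_range] at hj'
      rw [mem_coe, hSa, mem_filter, mem_range]
      refine ⟨B.pos_lt _, ?_⟩
      have e3 : B.nd v (B.pos (g j)) = g j := B.cls_trans (B.cls_nd v hj'.1) e1
      rw [e3, ← e2]
      exact hj'.2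
    · intro j hj j' hj' he
      have hj1 := mem_coe.1 hj
      have hj1' := mem_coe.1 hj'
      have e1 := hg1 j hj1
      have e2 := hg2 j hj1
      have e1' := hg1 j' hj1'
      have e2' := hg2 j' hj1'
      have m1 := mem_filter.1 hj1
      have m2 := mem_filter.1 hj1'
      rw [mem_range] at m1 m2
      have e3 : B.nd v (B.pos (g j)) = g j := B.cls_trans (B.cls_nd v m1.1) e1
      have e3' : B.nd v (B.pos (g j')) = g j' := B.cls_trans (B.cls_nd v m2.1) e1'
      have e4 : g j = g j' := by
        rw [← e3, ← e3']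
        simp only at he
        rw [he]
      have e5 : b (B.nd v j) = b (B.nd v j') := by rw [e2, e2', e4]
      rcases Nat.lt_trichotomy j j' with h' | h' | h'
      · have := sorted_lt h4 (hcls j j' m1.1 m2.1)
          (by rw [B.pos_nd v _ m1.1, B.pos_nd v _ m2.1]; exact h') (hact _ m2.2)
        rw [e5] at this
        exact absurd this (lt_irrefl _)
      · exact h'
      · have := sorted_lt h4 (hcls j' j m2.1 m1.1)
          (by rw [B.pos_nd v _ m1.1, B.pos_nd v _ m2.1]; exact h') (hact _ m1.2)
        rw [e5] at this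
        exact absurd this (lt_irrefl _)
  have hle2 : Sa.card ≤ Sb.card := by
    have hch : ∀ j ∈ Sa, ∃ u, B.cls (B.nd v j) u ∧ b u = a (B.nd v j) := by
      intro j hj
      rw [hSa, mem_filter] at hj
      exact h2 _ (hact _ hj.2)
    choose! g hg1 hg2 using hch
    refine card_le_card_of_injOn (fun j => B.pos (g j)) ?_ ?_
    · intro j hj
      have hj' := mem_coe.1 hj
      have e1 := hg1 j hj'
      have e2 := hg2 j hj'
      rw [hSa, mem_filter, mem_range] at hj'
      rw [mem_coe, hSb, mem_filter, mem_range]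
      refine ⟨B.pos_lt _, ?_⟩
      have e3 : B.nd v (B.pos (g j)) = g j := B.cls_trans (B.cls_nd v hj'.1) e1
      rw [e3, e2]
      exact hj'.2
    · intro j hj j' hj' he
      have hj1 := mem_coe.1 hj
      have hj1' := mem_coe.1 hj'
      have e1 := hg1 j hj1
      have e2 := hg2 j hj1
      have e1' := hg1 j' hj1'
      have e2' := hg2 j' hj1'
      have m1 := mem_filter.1 hj1
      have m2 := mem_filter.1 hj1'
      rw [mem_range] at m1 m2
      have e3 : B.nd v (B.pos (g j)) = g j := B.cls_trans (B.cls_nd v m1.1) e1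
      have e3' : B.nd v (B.pos (g j')) = g j' := B.cls_trans (B.cls_nd v m2.1) e1'
      have e4 : g j = g j' := by
        rw [← e3, ← e3']
        simp only at he
        rw [he]
      have e5 : a (B.nd v j) = a (B.nd v j') := by rw [← e2, ← e2', e4]
      have e6 := hD (B.nd v j) (B.nd v j') (hcls j j' m1.1 m2.1) (hact _ m1.2) (hact _ m2.2)
        (by rw [e5])
      have e7 := congrArg B.pos e6
      rwa [B.pos_nd v _ m1.1, B.pos_nd v _ m2.1] at e7
  have hcard : Sb.card = Sa.card := le_antisymm hle1 hle2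
  rw [← hcard, ← mem_iff_lt_card hdown, hSb, mem_filter, mem_range]
  exact ⟨fun h => ⟨hi, h⟩, fun h => h.2⟩

/-- selection -/
noncomputable def sel (p : V → Prop) : Option V := if h : ∃ u, p u then some h.choose else none

lemma sel_some {p : V → Prop} {u : V} (h : sel p = some u) : p u := by
  unfold sel at h
  split_ifs at h with h'
  · rw [← Option.some.inj h]; exact h'.choose_spec

lemma sel_none {p : V → Prop} (h : sel p = none) : ∀ u, ¬ p u := by
  unfold sel at h
  split_ifs at h with h'
  · exact fun u hu => h' ⟨u, hu⟩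

/-- the criterion: `u` is the item of rank `pos v` of the class of `v` -/
def crit (B : Blk V m) (key : X × Option R → ℕ) (a : V → Option X × Option R) (v u : V) : Prop :=
  B.cls v u ∧ (a u).1.isSome = true ∧ rk (2 ^ m) (fun j => kv key (a (B.nd v j))) (B.pos u) = B.pos v

/-- the sorted array -/
noncomputable def srtd (B : Blk V m) (key : X × Option R → ℕ) (a : V → Option X × Option R) (v : V) :
    Option X × Option R :=
  match sel (crit B key a v) with
  | some u => a u
  | none => emp

lemma srtd_some {B : Blk V m} {key : X × Option R → ℕ} {a : V → Option X × Option R}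
    (hD : Dist B key a) {v u : V} (hu : crit B key a v u) : srtd B key a v = a u := by
  unfold srtd
  rcases h : sel (crit B key a v) with _ | u'
  · exact absurd hu (sel_none h u)
  · have h1 := sel_some h
    have hinj : ∀ i, i < 2 ^ m → ∀ j, j < 2 ^ m → kv key (a (B.nd v i)) ≠ ⊤ →
        kv key (a (B.nd v i)) = kv key (a (B.nd v j)) → i = j := by
      intro i hi j hj ht he
      have e1 := hD (B.nd v i) (B.nd v j)
        (B.cls_trans (B.cls_symm (B.cls_nd v hi)) (B.cls_nd v hj)) (kv_ne_top.1 ht)
        (kv_ne_top.1 (he ▸ ht)) he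
      have e2 := congrArg B.pos e1
      rwa [B.pos_nd v _ hi, B.pos_nd v _ hj] at e2
    have e0 : B.nd v (B.pos u') = u' := h1.1
    have e1 := rk_inj hinj (B.pos_lt u') (B.pos_lt u) (by rw [e0]; exact kv_ne_top.2 h1.2.1)
      (h1.2.2.trans hu.2.2.symm)
    have e2 : B.nd v (B.pos u) = u := hu.1
    show a u' = a u
    rw [← e0, e1, e2]

lemma srtd_spec (B : Blk V m) (key : X × Option R → ℕ) (a : V → Option X × Option R)
    (hD : Dist B key a) : SortSpec B key a (srtd B key a) := by
  have hinj : ∀ v i, i < 2 ^ m → ∀ j, j < 2 ^ m → kv key (a (B.nd v i)) ≠ ⊤ →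
      kv key (a (B.nd v i)) = kv key (a (B.nd v j)) → i = j := by
    intro v i hi j hj ht he
    have e1 := hD (B.nd v i) (B.nd v j)
      (B.cls_trans (B.cls_symm (B.cls_nd v hi)) (B.cls_nd v hj)) (kv_ne_top.1 ht)
      (kv_ne_top.1 (he ▸ ht)) he
    have e2 := congrArg B.pos e1
    rwa [B.pos_nd v _ hi, B.pos_nd v _ hj] at e2
  have hcrit : ∀ v, (srtd B key a v).1.isSome = true → ∃ u, crit B key a v u ∧ srtd B key a v = a u := by
    intro v hv
    unfold srtd at hv ⊢
    rcases h : sel (crit B key a v) with _ | u'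
    · rw [h] at hv; simp [emp] at hv
    · exact ⟨u', sel_some h, rfl⟩
  refine ⟨?_, ?_, ?_, ?_⟩
  · intro v hv
    obtain ⟨u, h1, h2⟩ := hcrit v hv
    exact ⟨u, h1.1, h2⟩
  · intro u hu
    have h1 : rk (2 ^ m) (fun j => kv key (a (B.nd u j))) (B.pos u) < 2 ^ m := rk_lt (B.pos_lt u)
    refine ⟨B.nd u (rk (2 ^ m) (fun j => kv key (a (B.nd u j))) (B.pos u)), B.cls_nd u h1, ?_⟩
    refine srtd_some hD ⟨B.cls_symm (B.cls_nd u h1), hu, ?_⟩
    rw [B.pos_nd u _ h1]
    have e1 : ∀ j ∈ range (2 ^ m), B.nd (B.nd u (rk (2 ^ m) (fun j => kv key (a (B.nd u j))) (B.pos u))) j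
        = B.nd u j := fun j hj => B.nd_nd u _ _ h1 (mem_range.1 hj)
    unfold rk
    congr 1
    refine filter_congr fun j hj => ?_
    simp only
    have e2 := e1 j hj
    have e3 := e1 (B.pos u) (mem_range.2 (B.pos_lt u))
    unfold rk at e2 e3
    rw [e2, e3]
  · intro v hv
    unfold srtd at hv ⊢
    rcases h : sel (crit B key a v) with _ | u'
    · rfl
    · rw [h] at hv
      have := (sel_some h).2.1
      simp only at hv
      rw [hv] at this
      simp at this
  · intro v u hc _ hp hu
    obtain ⟨u1, hu1, hu2⟩ := hcrit u hu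
    -- change of base point from u to v
    have e1 : ∀ j ∈ range (2 ^ m), B.nd u j = B.nd v j := fun j hj => B.nd_of_cls hc (mem_range.1 hj)
    have e2 : rk (2 ^ m) (fun j => kv key (a (B.nd v j))) (B.pos u1) = B.pos u := by
      rw [← hu1.2.2]
      unfold rk
      congr 1
      refine filter_congr fun j hj => ?_
      simp only
      rw [e1 j hj, e1 (B.pos u1) (mem_range.2 (B.pos_lt u1))]
    obtain ⟨j, hj1, hj2, hj3, hj4⟩ := rk_surj (hinj v) (i := B.pos u1) (p := B.pos v) (by rw [e2]; exact hp)
    have e3 : srtd B key a v = a (B.nd v j) := by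
      refine srtd_some hD ⟨B.cls_nd v hj1, kv_ne_top.1 hj2, ?_⟩
      rw [B.pos_nd v _ hj1]
      exact hj3
    have e4 : B.nd v (B.pos u1) = u1 := B.cls_trans hc hu1.1
    rw [e3, hu2]
    simp only [e4] at hj4
    exact hj4

/-- one round sorts -/
lemma sort_round {M : Mach V Ω R} {Lam r0 S : ℕ} {cls : V → V → Prop} (hR : M.Rounds Lam cls r0)
    (hS : S + 1 ≤ Lam) (B : Blk V m) (hB : ∀ v u, B.cls v u → cls v u) :
    CanS M S B (fun _ => True) r0 := by
  intro X key P a hkey hsm ha hD _
  have hsz : Sz Lam (fun v w => (a v w).1) := hsm.sz.mono hS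
  have hkv : ∀ w w' (x y : Option X × Option R),
      (∀ r s, x.2 = some r → y.2 = some s → ((M.lt w r s ↔ M.lt w' r s) ∧ (M.lt w s r ↔ M.lt w' s r))) →
      (kv (key w) x < kv (key w) y ↔ kv (key w') x < kv (key w') y) := by
    intro w w' x y h
    unfold kv
    rcases hx : x.1 with _ | l
    · simp
    · rcases hy : y.1 with _ | l'
      · simp
      · simp only
        rw [Nat.cast_lt, Nat.cast_lt]
        exact hkey w w' (l, x.2) (l', y.2) h
  let b : V → Ω → Option X × Option R := fun v w => srtd B (key w) (fun u => a u w) v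
  have hdet : ∀ v, Mach.Det (M := M) (fun u : {u // cls v u} => a u) (b v) := by
    intro v
    constructor
    · intro w w' h1 h2
      have h1' : ∀ u, B.cls v u → a u w = a u w' := fun u hu => h1 ⟨u, hB v u hu⟩
      have h2' : ∀ u u', B.cls v u → B.cls v u' →
          (kv (key w) (a u w) < kv (key w) (a u' w) ↔ kv (key w') (a u w') < kv (key w') (a u' w')) := by
        intro u u' hu hu'
        rw [← h1' u hu, ← h1' u' hu']
        refine hkv w w' _ _ fun r s hr hs => ⟨?_, ?_⟩
        · exact h2 ⟨u, hB v u hu⟩ ⟨u', hB v u' hu'⟩ r s hr hs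
        · exact h2 ⟨u', hB v u' hu'⟩ ⟨u, hB v u hu⟩ s r hs hr
      have hc : crit B (key w) (fun u => a u w) v = crit B (key w') (fun u => a u w') v := by
        funext u
        refine propext ?_
        unfold crit
        refine and_congr_right fun hu => ?_
        simp only
        rw [h1' u hu]
        refine and_congr_right fun _ => ?_
        have : rk (2 ^ m) (fun j => kv (key w) (a (B.nd v j) w)) (B.pos u)
            = rk (2 ^ m) (fun j => kv (key w') (a (B.nd v j) w')) (B.pos u) := by
          unfold rk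
          congr 1
          refine filter_congr fun j hj => ?_
          exact h2' _ _ (B.cls_nd v (mem_range.1 hj)) (B.cls_nd v (B.pos_lt u))
        rw [this]
      show srtd B (key w) (fun u => a u w) v = srtd B (key w') (fun u => a u w') v
      unfold srtd
      rw [hc]
      rcases h : sel (crit B (key w') (fun u => a u w') v) with _ | u
      · rfl
      · exact h1' u (sel_some h).1
    · intro w r hr
      have hr' : (srtd B (key w) (fun u => a u w) v).2 = some r := hr
      unfold srtd at hr'
      rcases h : sel (crit B (key w) (fun u => a u w) v) with _ | u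
      · rw [h] at hr'; simp [emp] at hr'
      · rw [h] at hr'
        exact ⟨⟨u, hB v u (sel_some h).1⟩, hr'⟩
  have hszb : Sz Lam (fun v w => (b v w).1) := by
    refine (Sm.of_range hsm ?_).sz.mono hS
    intro v w
    show (srtd B (key w) (fun u => a u w) v).1 = none ∨ _
    unfold srtd
    rcases h : sel (crit B (key w) (fun u => a u w) v) with _ | u
    · exact Or.inl rfl
    · refine Or.inr ⟨u, w, ?_⟩
      show (match sel (crit B (key w) (fun u => a u w) v) with
        | some u => a u w
        | none => emp) = a u w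
      rw [h]
  refine (hR P (Option X) (Option X) a b hsz hszb ha hdet).mono le_rfl fun P' _ hP' => ⟨b, hP', fun w => ?_⟩
  exact srtd_spec B (key w) (fun u => a u w) (hD w)

end H69.HS
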