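import Mathlib

/-!
# CLOS LEMMA: every permutation of `A × B` in three stages (helper69, MP_8a058f_lc, proofs 333)
-/

namespace H69.HS

open Finset

/-- A bipartite multigraph with edge set `E` (finite), sources and targets in `A`, regular of
degree `n`, has a perfect matching. -/
private lemma exists_matching {A E : Type*} [Fintype A] [DecidableEq A] [DecidableEq E]
    (n : ℕ) (hn : 0 < n) (S : Finset E) (src tgt : E → A)
    (hs : ∀ a, (S.filter fun e => src e = a).card = n)
    (ht : ∀ a, (S.filter fun e => tgt e = a).card = n) :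
    ∃ M : A → E, (∀ a, M a ∈ S) ∧ (∀ a, src (M a) = a) ∧ Function.Bijective fun a => tgt (M a) := by
  classical
  let t : A → Finset A := fun a => (S.filter fun e => src e = a).image tgt
  have hall : ∀ s : Finset A, s.card ≤ (s.biUnion t).card := by
    intro s
    -- edges with source in s: n * |s|, their targets in biUnion: ≤ n * |biUnion|
    have h1 : (S.filter fun e => src e ∈ s).card = s.card * n := by
      have h2 := card_eq_sum_card_fiberwise (f := src) (s := S.filter fun e => src e ∈ s) (t := s)
        (fun e he => by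
          have := (mem_filter.1 he).2
          simpa using this)
      rw [h2, sum_const_nat (m := n)]
      intro a ha
      rw [← hs a]
      congr 1
      ext e
      simp only [mem_filter]
      constructor
      · rintro ⟨⟨h3, _⟩, h4⟩; exact ⟨h3, h4⟩
      · rintro ⟨h3, h4⟩; exact ⟨⟨h3, h4 ▸ ha⟩, h4⟩
    have h3 : (S.filter fun e => src e ∈ s).card ≤ (s.biUnion t).card * n := by
      have h4 := card_eq_sum_card_fiberwise (f := tgt) (s := S.filter fun e => src e ∈ s)
        (t := s.biUnion t) (fun e he => by
          have h5 := mem_filter.1 he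
          rw [coe_biUnion, Set.mem_iUnion₂]
          exact ⟨src e, h5.2, by
            simp only [t, coe_image, Set.mem_image, mem_coe, mem_filter]
            exact ⟨e, ⟨h5.1, rfl⟩, rfl⟩⟩)
      rw [h4]
      refine (sum_le_card_nsmul _ _ n ?_).trans (le_of_eq (by rw [smul_eq_mul]))
      intro a _
      rw [← ht a]
      refine card_le_card fun e he => ?_
      simp only [mem_filter] at he ⊢
      exact ⟨he.1.1, he.2⟩
    rw [h1] at h3
    exact Nat.le_of_mul_le_mul_right h3 hn
  obtain ⟨f, hf, hft⟩ := (Finset.all_card_le_biUnion_card_iff_exists_injective t).1 hall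
  have hM : ∀ a, ∃ e, e ∈ S ∧ src e = a ∧ tgt e = f a := by
    intro a
    have := hft a
    simp only [t, mem_image, mem_filter] at this
    obtain ⟨e, ⟨h1, h2⟩, h3⟩ := this
    exact ⟨e, h1, h2, h3⟩
  choose M hM1 hM2 hM3 using hM
  refine ⟨M, hM1, hM2, ?_⟩
  have : (fun a => tgt (M a)) = f := funext hM3
  rw [this]
  exact Finite.injective_iff_bijective.1 hf

/-- edge colouring of a regular bipartite multigraph -/
private lemma exists_colouring {A E : Type*} [Fintype A] [DecidableEq A] [DecidableEq E] :
    ∀ (n : ℕ) (S : Finset E) (src tgt : E → A),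
    (∀ a, (S.filter fun e => src e = a).card = n) →
    (∀ a, (S.filter fun e => tgt e = a).card = n) →
    ∃ c : E → Fin n → Prop,
      (∀ a i, ∃! e, e ∈ S ∧ src e = a ∧ c e i) ∧
      (∀ a i, ∃! e, e ∈ S ∧ tgt e = a ∧ c e i) ∧
      (∀ e ∈ S, ∃! i, c e i) := by
  intro n
  induction n with
  | zero =>
    intro S src tgt hs ht
    refine ⟨fun _ i => i.elim0, fun _ i => i.elim0, fun _ i => i.elim0, fun e he => ?_⟩
    exfalso
    have h1 := hs (src e)
    rw [card_eq_zero, filter_eq_empty_iff] at h1
    exact h1 he rfl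
  | succ n ih =>
    intro S src tgt hs ht
    obtain ⟨M, hM1, hM2, hM3⟩ := exists_matching (n + 1) (Nat.succ_pos n) S src tgt hs ht
    set R : Finset E := univ.image M with hR
    have hMinj : Function.Injective M := by
      intro a b hab
      rw [← hM2 a, ← hM2 b, hab]
    have hRS : R ⊆ S := by
      intro e he
      rw [hR, mem_image] at he
      obtain ⟨a, _, rfl⟩ := he
      exact hM1 a
    have hs' : ∀ a, ((S \ R).filter fun e => src e = a).card = n := by
      intro a
      have h1 : (S \ R).filter (fun e => src e = a) = (S.filter fun e => src e = a).erase (M a) := by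
        ext e
        simp only [mem_filter, mem_sdiff, mem_erase, hR, mem_image, mem_univ, true_and, not_exists]
        constructor
        · rintro ⟨⟨h2, h3⟩, h4⟩
          exact ⟨fun h5 => h3 a h5.symm, h2, h4⟩
        · rintro ⟨h2, h3, h4⟩
          refine ⟨⟨h3, fun b hb => h2 ?_⟩, h4⟩
          have : b = a := by rw [← hM2 b, hb, h4]
          rw [← hb, this]
      rw [h1, card_erase_of_mem (mem_filter.2 ⟨hM1 a, hM2 a⟩), hs a]
      rfl
    have ht' : ∀ a, ((S \ R).filter fun e => tgt e = a).card = n := by
      intro a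
      obtain ⟨b, hb⟩ := hM3.2 a
      simp only at hb
      have h1 : (S \ R).filter (fun e => tgt e = a) = (S.filter fun e => tgt e = a).erase (M b) := by
        ext e
        simp only [mem_filter, mem_sdiff, mem_erase, hR, mem_image, mem_univ, true_and, not_exists]
        constructor
        · rintro ⟨⟨h2, h3⟩, h4⟩
          exact ⟨fun h5 => h3 b h5.symm, h2, h4⟩
        · rintro ⟨h2, h3, h4⟩
          refine ⟨⟨h3, fun d hd => h2 ?_⟩, h4⟩
          have : d = b := hM3.1 (by simp only; rw [hd, h4, hb])
          rw [← hd, this]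
      rw [h1, card_erase_of_mem (mem_filter.2 ⟨hM1 b, hb⟩), ht a]
      rfl
    obtain ⟨c, hc1, hc2, hc3⟩ := ih (S \ R) src tgt hs' ht'
    refine ⟨fun e i => Fin.cases (e ∈ R) (fun i' => e ∉ R ∧ c e i') i, ?_, ?_, ?_⟩
    · intro a i
      refine Fin.cases ?_ (fun i' => ?_) i
      · refine ⟨M a, ⟨hM1 a, hM2 a, ?_⟩, ?_⟩
        · show M a ∈ R
          rw [hR]; exact mem_image_of_mem _ (mem_univ a)
        · rintro e ⟨_, h2, h3⟩
          have h3' : e ∈ R := h3
          rw [hR, mem_image] at h3'
          obtain ⟨b, _, rfl⟩ := h3'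
          rw [hM2] at h2; rw [h2]
      · obtain ⟨e, ⟨h1, h2, h3⟩, h4⟩ := hc1 a i'
        rw [mem_sdiff] at h1
        refine ⟨e, ⟨h1.1, h2, h1.2, h3⟩, ?_⟩
        rintro e' ⟨h5, h6, h7, h8⟩
        exact h4 e' ⟨mem_sdiff.2 ⟨h5, h7⟩, h6, h8⟩
    · intro a i
      refine Fin.cases ?_ (fun i' => ?_) i
      · obtain ⟨b, hb⟩ := hM3.2 a
        simp only at hb
        refine ⟨M b, ⟨hM1 b, hb, ?_⟩, ?_⟩
        · show M b ∈ R
          rw [hR]; exact mem_image_of_mem _ (mem_univ b)
        · rintro e ⟨_, h2, h3⟩
          have h3' : e ∈ R := h3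
          rw [hR, mem_image] at h3'
          obtain ⟨d, _, rfl⟩ := h3'
          have : d = b := hM3.1 (by simp only; rw [h2, hb])
          rw [this]
      · obtain ⟨e, ⟨h1, h2, h3⟩, h4⟩ := hc2 a i'
        rw [mem_sdiff] at h1
        refine ⟨e, ⟨h1.1, h2, h1.2, h3⟩, ?_⟩
        rintro e' ⟨h5, h6, h7, h8⟩
        exact h4 e' ⟨mem_sdiff.2 ⟨h5, h7⟩, h6, h8⟩
    · intro e he
      by_cases hR' : e ∈ R
      · refine ⟨0, hR', ?_⟩
        intro i
        refine Fin.cases (fun _ => rfl) (fun i' => ?_) i
        rintro ⟨h1, _⟩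
        exact absurd hR' h1
      · obtain ⟨i, h1, h2⟩ := hc3 e (mem_sdiff.2 ⟨he, hR'⟩)
        refine ⟨i.succ, ⟨hR', h1⟩, ?_⟩
        intro i'
        refine Fin.cases (fun h3 => absurd h3 hR') (fun i'' => ?_) i'
        rintro ⟨_, h3⟩
        rw [h2 i'' h3]

/-- **CLOS LEMMA.** Every permutation of `A × B` is: permute every `{a} × B`, then every
`A × {b}`, then every `{a} × B`. -/
theorem clos {A B : Type*} [Fintype A] [Fintype B] (π : Equiv.Perm (A × B)) :
    ∃ (f : A → Equiv.Perm B) (g : B → Equiv.Perm A) (h : A → Equiv.Perm B),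
      ∀ a b, π (a, b) = (g (f a b) a, h (g (f a b) a) (f a b)) := by
  classical
  set n := Fintype.card B with hn
  let eB : B ≃ Fin n := Fintype.equivFin B
  have hs : ∀ a : A, ((univ : Finset (A × B)).filter fun e => e.1 = a).card = n := by
    intro a
    have h1 : ((univ : Finset (A × B)).filter fun e => e.1 = a) = ({a} : Finset A) ×ˢ univ := by
      ext ⟨x, y⟩; simp [eq_comm]
    rw [h1, card_product, card_singleton, one_mul, card_univ]
  have ht : ∀ a : A, ((univ : Finset (A × B)).filter fun e => (π e).1 = a).card = n := by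
    intro a
    rw [← hs a]
    refine card_bij' (fun e _ => π e) (fun e _ => π.symm e) ?_ ?_ ?_ ?_
    · intro e he; simpa using he
    · intro e he; simpa using he
    · intro e _; simp
    · intro e _; simp
  obtain ⟨c, hc1, hc2, hc3⟩ := exists_colouring n univ (fun e : A × B => e.1) (fun e => (π e).1) hs ht
  -- colour of an edge
  choose col hcol hcol' using fun e : A × B => hc3 e (mem_univ e)
  have hcolu : ∀ e i, c e i → i = col e := fun e i h => hcol' e i h
  have hf : ∀ a : A, Function.Bijective fun b => eB.symm (col (a, b)) := by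
    intro a
    constructor
    · intro b b' hbb
      have h1 : col (a, b) = col (a, b') := eB.symm.injective hbb
      obtain ⟨e, _, he⟩ := hc1 a (col (a, b))
      have h2 := he (a, b) ⟨mem_univ _, rfl, hcol _⟩
      have h3 := he (a, b') ⟨mem_univ _, rfl, h1 ▸ hcol _⟩
      have h4 : (a, b) = (a, b') := h2.trans h3.symm
      exact (Prod.mk.inj h4).2
    · intro b'
      obtain ⟨⟨x, y⟩, ⟨_, h1, h2⟩, _⟩ := hc1 a (eB b')
      simp only at h1
      subst h1
      refine ⟨y, ?_⟩
      simp only
      rw [← hcolu _ _ h2]; simp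
  let f : A → Equiv.Perm B := fun a => Equiv.ofBijective _ (hf a)
  have hfdef : ∀ a b, f a b = eB.symm (col (a, b)) := fun a b => rfl
  -- g
  have hg : ∀ b' : B, Function.Bijective fun a => (π (a, (f a).symm b')).1 := by
    intro b'
    rw [← Finite.injective_iff_bijective]
    intro a a' haa
    simp only at haa
    have h1 : ∀ x, col (x, (f x).symm b') = eB b' := by
      intro x
      have : f x ((f x).symm b') = b' := by simp
      rw [hfdef] at this
      exact (eB.symm_apply_eq.1 this)
    obtain ⟨e, _, he⟩ := hc2 (π (a, (f a).symm b')).1 (eB b')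
    have h2 := he (a, (f a).symm b') ⟨mem_univ _, rfl, by rw [← h1 a]; exact hcol _⟩
    have h3 := he (a', (f a').symm b') ⟨mem_univ _, haa.symm, by rw [← h1 a']; exact hcol _⟩
    have h4 := h2.trans h3.symm
    exact (Prod.mk.inj h4).1
  let g : B → Equiv.Perm A := fun b' => Equiv.ofBijective _ (hg b')
  have hgdef : ∀ b' a, g b' a = (π (a, (f a).symm b')).1 := fun _ _ => rfl
  -- h
  have hh : ∀ a' : A, Function.Bijective fun b' =>
      (π ((g b').symm a', (f ((g b').symm a')).symm b')).2 := by
    intro a'
    rw [← Finite.injective_iff_bijective]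
    intro b b' hbb
    simp only at hbb
    have h1 : ∀ y, (π ((g y).symm a', (f ((g y).symm a')).symm y)).1 = a' := by
      intro y
      rw [← hgdef]; simp
    have h2 : π ((g b).symm a', (f ((g b).symm a')).symm b)
        = π ((g b').symm a', (f ((g b').symm a')).symm b') := by
      ext
      · rw [h1, h1]
      · exact hbb
    have h3 := π.injective h2
    have h4 := (Prod.mk.inj h3)
    have h5 : f ((g b).symm a') ((f ((g b).symm a')).symm b)
        = f ((g b').symm a') ((f ((g b').symm a')).symm b') := by
      rw [h4.2, h4.1]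
    simpa using h5
  let h : A → Equiv.Perm B := fun a' => Equiv.ofBijective _ (hh a')
  refine ⟨f, g, h, fun a b => ?_⟩
  have e1 : g (f a b) a = (π (a, b)).1 := by
    rw [hgdef]; simp
  have e2 : h (g (f a b) a) (f a b) = (π (a, b)).2 := by
    show (π ((g (f a b)).symm (g (f a b) a), (f ((g (f a b)).symm (g (f a b) a))).symm (f a b))).2 = _
    simp
  rw [e2, e1]

end H69.HS
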