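import Mathlib

/-!
# COLUMNSORT, the pure part (helper69, MP_8a058f_lc, proofs 333)

`r` rows, `s` columns, place `x < r * s` is in column `x / r`, row `x % r`.  For one threshold: `p x` says that the item at
the place `x` is at most the threshold.  `ColS`: every column sorted.
-/

set_option autoImplicit false

namespace H69.HS

open Finset Classical

/-- `p'` is `p` with the columns sorted -/
def ColS (r s : ℕ) (p p' : ℕ → Prop) : Prop :=
  ∀ c, c < s → ∀ i, i < r → (p' (c * r + i) ↔ i < ((range r).filter fun j => p (c * r + j)).card)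

private lemma bound_lt {r s c i : ℕ} (hc : c < s) (hi : i < r) : c * r + i < r * s := by
  have h1 : (c + 1) * r ≤ s * r := Nat.mul_le_mul_right _ hc
  nlinarith

private lemma split_place {r s x : ℕ} (hx : x < r * s) :
    x / r < s ∧ x % r < r ∧ x / r * r + x % r = x := by
  have hr : 0 < r := by
    rcases Nat.eq_zero_or_pos r with h | h
    · subst h; simp at hx
    · exact h
  exact ⟨Nat.div_lt_of_lt_mul hx, Nat.mod_lt _ hr, Nat.div_add_mod' x r⟩

/-- the pure columnsort theorem: `p8` is downward closed -/
theorem colpure (r s : ℕ) (hs : 0 < s) (hsr : s ∣ r) (hss : 2 * (s * s) ≤ r) (hr2 : 2 ∣ r)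
    (p0 p1 p2 p3 p4 p5 p6 p7 p8 : ℕ → Prop)
    (h1 : ColS r s p0 p1)
    (h2 : ∀ x, x < r * s → (p2 (x % s * r + x / s) ↔ p1 x))
    (h3 : ColS r s p2 p3)
    (h4 : ∀ x, x < r * s → (p4 x ↔ p3 (x % s * r + x / s)))
    (h5 : ColS r s p4 p5)
    (h6 : ∀ x, x < r * s → (p6 ((x + r / 2) % (r * s)) ↔ p5 x))
    (h7 : ∀ c, 1 ≤ c → c < s → ∀ i, i < r →
      (p7 (c * r + i) ↔ i < ((range r).filter fun j => p6 (c * r + j)).card))
    (h7' : ∀ i, i < r → (p7 i ↔ p6 i))
    (h8 : ∀ x, x < r * s → (p8 x ↔ p7 ((x + r / 2) % (r * s)))) :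
    ∀ x y, x ≤ y → y < r * s → p8 y → p8 x := by
  obtain ⟨h, rfl⟩ := hr2
  have hh : 2 * h / 2 = h := by omega
  rw [hh] at h6 h8
  set r := 2 * h with hr
  have hrpos : 0 < r := by nlinarith
  have hhpos : 0 < h := by omega
  obtain ⟨ρ, hρ⟩ := hsr
  -- sorted columns of p1
  have hp1 : ∀ c, c < s → ∀ i i', i ≤ i' → i' < r → p1 (c * r + i') → p1 (c * r + i) := by
    intro c hc i i' hii hi' hp
    rw [h1 c hc i (by omega)]
    rw [h1 c hc i' hi'] at hp
    omega
  -- T
  let T : ℕ → Finset ℕ := fun c' => (range r).filter fun i => p1 (i * s + c')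
  have hxs : ∀ i c', i < r → c' < s → i * s + c' < r * s := by
    intro i c' hi hc'
    have : (i + 1) * s ≤ r * s := Nat.mul_le_mul_right _ hi
    nlinarith
  have hmod : ∀ i c', c' < s → (i * s + c') % s = c' := by
    intro i c' hc'
    rw [mul_comm, Nat.mul_add_mod, Nat.mod_eq_of_lt hc']
  have hdiv : ∀ i c', c' < s → (i * s + c') / s = i := by
    intro i c' hc'
    rw [mul_comm, Nat.mul_add_div hs, Nat.div_eq_of_lt hc', add_zero]
  have hp3 : ∀ c', c' < s → ∀ i, i < r → (p3 (c' * r + i) ↔ i < (T c').card) := by
    intro c' hc' i hi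
    rw [h3 c' hc' i hi]
    have : (range r).filter (fun j => p2 (c' * r + j)) = T c' := by
      refine filter_congr fun j hj => ?_
      rw [mem_range] at hj
      have := h2 (j * s + c') (hxs j c' hj hc')
      rw [hmod j c' hc', hdiv j c' hc'] at this
      exact this
    rw [this]
  -- the aligned block of s places is in one column
  have hcol : ∀ i c, c < s → (i * s + c) / r = i * s / r := by
    intro i c hc
    rw [hρ, ← Nat.div_div_eq_div_mul, ← Nat.div_div_eq_div_mul, hdiv i c hc, Nat.mul_div_cancel _ hs]
  have hTanti : ∀ c' c'', c' ≤ c'' → c'' < s → T c'' ⊆ T c' := by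
    intro c' c'' hcc hc'' i hi
    simp only [T, mem_filter, mem_range] at hi ⊢
    refine ⟨hi.1, ?_⟩
    have e1 := split_place (hxs i c'' hi.1 hc'')
    have e2 := split_place (hxs i c' hi.1 (by omega))
    have e3 : (i * s + c') / r = (i * s + c'') / r := by
      rw [hcol i c' (by omega), hcol i c'' hc'']
    have e4 := hi.2
    rw [← e1.2.2] at e4
    rw [← e2.2.2]
    rw [e3]
    refine hp1 _ e1.1 _ _ ?_ e1.2.1 e4
    have e5 := e1.2.2
    have e6 := e2.2.2
    rw [e3] at e6
    omega
  have hTdiff : (T 0).card ≤ (T (s - 1)).card + s := by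
    have e0 : T 0 ⊆ T (s - 1) ∪ (T 0 \ T (s - 1)) := by
      intro i hi
      by_cases h' : i ∈ T (s - 1)
      · exact mem_union_left _ h'
      · exact mem_union_right _ (mem_sdiff.2 ⟨hi, h'⟩)
    have e1 : (T 0 \ T (s - 1)).card ≤ (range s).card := by
      refine card_le_card_of_injOn (fun i => i * s / r) ?_ ?_
      · intro i hi
        have hi' := (mem_sdiff.1 (mem_coe.1 hi)).1
        simp only [T, mem_filter, mem_range] at hi'
        have := (split_place (hxs i 0 hi'.1 hs)).1
        rw [add_zero] at this
        exact mem_coe.2 (mem_range.2 this)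
      · -- injectivity
        have key : ∀ i i', i ∈ T 0 \ T (s - 1) → i' ∈ T 0 \ T (s - 1) → i * s / r = i' * s / r →
            ¬ i < i' := by
          intro i i' hi hi' hii hlt
          rw [mem_sdiff] at hi hi'
          have a1 := hi.1
          have a2 := hi'.1
          have a3 := hi.2
          simp only [T, mem_filter, mem_range, add_zero, not_and] at a1 a2 a3
          apply a3 a1.1
          have b1 := split_place (hxs i (s - 1) a1.1 (by omega))
          have b2 := split_place (hxs i' 0 a2.1 hs)
          rw [add_zero] at b2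
          have b3 : (i * s + (s - 1)) / r = i' * s / r := by
            rw [hcol i (s - 1) (by omega), hii]
          have b4 := a2.2
          rw [← b2.2.2] at b4
          rw [← b1.2.2, b3]
          refine hp1 _ b2.1 _ _ ?_ b2.2.1 b4
          have b5 := b1.2.2
          rw [b3] at b5
          have b6 := b2.2.2
          have b7 : (i + 1) * s ≤ i' * s := Nat.mul_le_mul_right _ hlt
          rw [Nat.add_mul, one_mul] at b7
          omega
        intro i hi i' hi' hii
        rcases Nat.lt_trichotomy i i' with h' | h' | h'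
        · exact absurd h' (key i i' hi hi' hii)
        · exact h'
        · exact absurd h' (key i' i hi' hi hii.symm)
    have e2 := (card_le_card e0).trans (card_union_le _ _)
    rw [card_range] at e1
    omega
  set L := (T (s - 1)).card * s with hL
  set U := (T 0).card * s with hU
  have hUL : U ≤ L + h := by
    have : (T 0).card * s ≤ ((T (s - 1)).card + s) * s := Nat.mul_le_mul_right _ hTdiff
    rw [hL, hU]
    nlinarith
  have hp4 : ∀ x, x < r * s → (p4 x ↔ x / s < (T (x % s)).card) := by
    intro x hx
    rw [h4 x hx, hp3 (x % s) (Nat.mod_lt _ hs) (x / s) (Nat.div_lt_of_lt_mul (by rw [mul_comm]; exact hx))]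
  have hp4L : ∀ x, x < r * s → x < L → p4 x := by
    intro x hx hxL
    rw [hp4 x hx]
    have e1 : x / s < (T (s - 1)).card := Nat.div_lt_of_lt_mul (by rw [mul_comm]; exact hxL)
    have e2 := card_le_card (hTanti (x % s) (s - 1) (by have := Nat.mod_lt x hs; omega) (by omega))
    omega
  have hp4U : ∀ x, x < r * s → U ≤ x → ¬ p4 x := by
    intro x hx hxU
    rw [hp4 x hx, not_lt]
    have e1 : (T 0).card ≤ x / s := by
      rw [Nat.le_div_iff_mul_le hs]; exact hxU
    have e2 := card_le_card (hTanti 0 (x % s) (Nat.zero_le _) (Nat.mod_lt _ hs))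
    omega
  -- p5
  have hp5L : ∀ x, x < r * s → x < L → p5 x := by
    intro x hx hxL
    obtain ⟨e1, e2, e3⟩ := split_place hx
    rw [← e3, h5 _ e1 _ e2]
    have e4 : range (x % r + 1) ⊆ (range r).filter fun j => p4 (x / r * r + j) := by
      intro j hj
      rw [mem_range] at hj
      rw [mem_filter, mem_range]
      exact ⟨by omega, hp4L _ (bound_lt e1 (by omega)) (by omega)⟩
    have := card_le_card e4
    rw [card_range] at this
    omega
  have hp5U : ∀ x, x < r * s → U ≤ x → ¬ p5 x := by
    intro x hx hxU
    obtain ⟨e1, e2, e3⟩ := split_place hx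
    rw [← e3, h5 _ e1 _ e2, not_lt]
    have e4 : ((range r).filter fun j => p4 (x / r * r + j)) ⊆ range (x % r) := by
      intro j hj
      rw [mem_filter, mem_range] at hj
      rw [mem_range]
      by_contra h'
      exact hp4U _ (bound_lt e1 hj.1) (by omega) hj.2
    have := card_le_card e4
    rw [card_range] at this
    exact this
  have hp5s : ∀ x y, x ≤ y → y < r * s → x / r = y / r → p5 y → p5 x := by
    intro x y hxy hy hq hp
    obtain ⟨e1, e2, e3⟩ := split_place hy
    obtain ⟨f1, f2, f3⟩ := split_place (lt_of_le_of_lt hxy hy)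
    rw [← e3, h5 _ e1 _ e2] at hp
    rw [← f3, hq, h5 _ e1 _ f2]
    rw [hq] at f3
    omega
  -- p8 in terms of p5; regions (x + h) / r
  have hreg0 : ∀ x, x < r * s → (x + h) / r = 0 → (p8 x ↔ p5 x) := by
    intro x hx hx0
    have e1 : x + h < r := by
      rcases Nat.div_eq_zero_iff.1 hx0 with h' | h'
      · omega
      · exact h'
    have e2 : x + h < r * s := lt_of_lt_of_le e1 (Nat.le_mul_of_pos_right _ hs)
    have e4 := h6 x hx
    rw [Nat.mod_eq_of_lt e2] at e4
    rw [h8 x hx, Nat.mod_eq_of_lt e2, h7' _ e1, e4]
  have hregs : ∀ x, x < r * s → s ≤ (x + h) / r → (p8 x ↔ p5 x) := by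
    intro x hx hxs
    have e1 : r * s ≤ x + h := by
      rw [mul_comm]; exact (Nat.le_div_iff_mul_le hrpos).1 hxs
    have e2 : (x + h) % (r * s) = x + h - r * s := by
      rw [Nat.mod_eq_sub_mod e1, Nat.mod_eq_of_lt]
      have : r ≤ r * s := Nat.le_mul_of_pos_right _ hs
      omega
    have e4 := h6 x hx
    rw [e2] at e4
    rw [h8 x hx, e2, h7' _ (by omega), e4]
  have hregm : ∀ x, x < r * s → 1 ≤ (x + h) / r → (x + h) / r < s →
      (p8 x ↔ (x + h) % r < ((range r).filter fun j => p5 ((x + h) / r * r + j - h)).card) := by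
    intro x hx hx1 hxs
    have e1 : x + h < r * s := by
      rw [mul_comm]; exact (Nat.div_lt_iff_lt_mul hrpos).1 hxs
    obtain ⟨f1, f2, f3⟩ := split_place e1
    rw [h8 x hx, Nat.mod_eq_of_lt e1]
    have h7x := h7 _ hx1 hxs _ f2
    rw [f3] at h7x
    rw [h7x]
    have e2 : ((range r).filter fun j => p6 ((x + h) / r * r + j))
        = ((range r).filter fun j => p5 ((x + h) / r * r + j - h)) := by
      refine filter_congr fun j hj => ?_
      rw [mem_range] at hj
      have g1 : (x + h) / r * r + j < r * s := bound_lt hxs hj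
      have g2 : 1 * r ≤ (x + h) / r * r := Nat.mul_le_mul_right _ hx1
      have g3 : (x + h) / r * r + j - h + h = (x + h) / r * r + j := by omega
      have := h6 ((x + h) / r * r + j - h) (by omega)
      rw [g3, Nat.mod_eq_of_lt g1] at this
      exact this
    rw [e2]
  -- region of x: all z with the same region
  have G1 : ∀ x, x < r * s → (∀ z, z < r * s → (z + h) / r = (x + h) / r → p5 z) → p8 x := by
    intro x hx hall
    rcases Nat.eq_zero_or_pos ((x + h) / r) with e | e
    · exact (hreg0 x hx e).2 (hall x hx rfl)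
    · by_cases e' : (x + h) / r < s
      · rw [hregm x hx e e']
        have e2 : ((range r).filter fun j => p5 ((x + h) / r * r + j - h)) = range r := by
          refine filter_true_of_mem fun j hj => ?_
          rw [mem_range] at hj
          have g1 : (x + h) / r * r + j < r * s := bound_lt e' hj
          have g2 : 1 * r ≤ (x + h) / r * r := Nat.mul_le_mul_right _ e
          have g3 : (x + h) / r * r + j - h + h = (x + h) / r * r + j := by omega
          refine hall _ (by omega) ?_
          rw [g3, mul_comm, Nat.mul_add_div hrpos, Nat.div_eq_of_lt hj, add_zero]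
        rw [e2, card_range]
        exact Nat.mod_lt _ hrpos
      · exact (hregs x hx (by omega)).2 (hall x hx rfl)
  have G2 : ∀ y, y < r * s → p8 y → ∃ z, z < r * s ∧ (z + h) / r = (y + h) / r ∧ p5 z := by
    intro y hy hp
    rcases Nat.eq_zero_or_pos ((y + h) / r) with e | e
    · exact ⟨y, hy, rfl, (hreg0 y hy e).1 hp⟩
    · by_cases e' : (y + h) / r < s
      · rw [hregm y hy e e'] at hp
        have hne : ((range r).filter fun j => p5 ((y + h) / r * r + j - h)).Nonempty :=
          card_pos.1 (by omega)
        obtain ⟨j, hj⟩ := hne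
        rw [mem_filter, mem_range] at hj
        have g1 : (y + h) / r * r + j < r * s := bound_lt e' hj.1
        have g2 : 1 * r ≤ (y + h) / r * r := Nat.mul_le_mul_right _ e
        have g3 : (y + h) / r * r + j - h + h = (y + h) / r * r + j := by omega
        refine ⟨_, by omega, ?_, hj.2⟩
        rw [g3, mul_comm, Nat.mul_add_div hrpos, Nat.div_eq_of_lt hj.1, add_zero]
      · exact ⟨y, hy, rfl, (hregs y hy (by omega)).1 hp⟩
  have hp8L : ∀ x, x < r * s → x < L → p8 x := by
    intro x hx hxL
    rcases Nat.eq_zero_or_pos ((x + h) / r) with e | e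
    · exact (hreg0 x hx e).2 (hp5L x hx hxL)
    · by_cases e' : (x + h) / r < s
      · rw [hregm x hx e e']
        have g2 : 1 * r ≤ (x + h) / r * r := Nat.mul_le_mul_right _ e
        have f3 := Nat.div_add_mod' (x + h) r
        have f2 : (x + h) % r < r := Nat.mod_lt _ hrpos
        have e4 : range ((x + h) % r + 1) ⊆ (range r).filter fun j => p5 ((x + h) / r * r + j - h) := by
          intro j hj
          rw [mem_range] at hj
          rw [mem_filter, mem_range]
          exact ⟨by omega, hp5L _ (by omega) (by omega)⟩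
        have := card_le_card e4
        rw [card_range] at this
        omega
      · exact (hregs x hx (by omega)).2 (hp5L x hx hxL)
  have hp8U : ∀ x, x < r * s → U ≤ x → ¬ p8 x := by
    intro x hx hxU
    rcases Nat.eq_zero_or_pos ((x + h) / r) with e | e
    · rw [hreg0 x hx e]; exact hp5U x hx hxU
    · by_cases e' : (x + h) / r < s
      · rw [hregm x hx e e', not_lt]
        have g2 : 1 * r ≤ (x + h) / r * r := Nat.mul_le_mul_right _ e
        have f3 := Nat.div_add_mod' (x + h) r
        have e4 : ((range r).filter fun j => p5 ((x + h) / r * r + j - h)) ⊆ range ((x + h) % r) := by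
          intro j hj
          rw [mem_filter, mem_range] at hj
          rw [mem_range]
          by_contra h'
          have g1 : (x + h) / r * r + j < r * s := bound_lt e' hj.1
          exact hp5U _ (by omega) (by omega) hj.2
        have := card_le_card e4
        rw [card_range] at this
        exact this
      · rw [hregs x hx (by omega)]; exact hp5U x hx hxU
  -- sorted inside a region
  have G3 : ∀ x y, x ≤ y → y < r * s → (x + h) / r = (y + h) / r → p8 y → p8 x := by
    intro x y hxy hy hreg hp
    have hx : x < r * s := lt_of_le_of_lt hxy hy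
    rcases Nat.eq_zero_or_pos ((y + h) / r) with e | e
    · rw [hreg0 x hx (hreg.trans e)]
      rw [hreg0 y hy e] at hp
      refine hp5s x y hxy hy ?_ hp
      have e1 : y + h < r := by
        rcases Nat.div_eq_zero_iff.1 e with h' | h'
        · omega
        · exact h'
      rw [Nat.div_eq_of_lt (by omega : x < r), Nat.div_eq_of_lt (by omega : y < r)]
    · by_cases e' : (y + h) / r < s
      · rw [hregm x hx (hreg ▸ e) (hreg ▸ e')]
        rw [hregm y hy e e'] at hp
        rw [hreg]
        have f3 := Nat.div_add_mod' (x + h) r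
        have f4 := Nat.div_add_mod' (y + h) r
        rw [hreg] at f3
        omega
      · rw [hregs x hx (by omega)]
        rw [hregs y hy (by omega)] at hp
        refine hp5s x y hxy hy ?_ hp
        -- both in the last half column
        have e1 : s * r ≤ x + h := (Nat.le_div_iff_mul_le hrpos).1 (by omega)
        have e2 : (s - 1) * r + r = s * r := by
          have : s - 1 + 1 = s := by omega
          calc (s - 1) * r + r = (s - 1 + 1) * r := by ring
            _ = s * r := by rw [this]
        have e0 : r * s = s * r := Nat.mul_comm _ _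
        have e3 : x / r = s - 1 := Nat.div_eq_of_lt_le (by omega) (by
          have : s - 1 + 1 = s := by omega
          rw [this]; omega)
        have e4 : y / r = s - 1 := Nat.div_eq_of_lt_le (by omega) (by
          have : s - 1 + 1 = s := by omega
          rw [this]; omega)
        rw [e3, e4]
  -- final
  intro x y hxy hy hp
  have hx : x < r * s := lt_of_le_of_lt hxy hy
  by_cases hreg : (x + h) / r = (y + h) / r
  · exact G3 x y hxy hy hreg hp
  by_cases hxL : x < L
  · exact hp8L x hx hxL
  have hyU : y < U := by
    by_contra h'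
    exact hp8U y hy (by omega) hp
  have hreg' : (x + h) / r < (y + h) / r := by
    have : (x + h) / r ≤ (y + h) / r := Nat.div_le_div_right (by omega)
    omega
  obtain ⟨z, hz, hzreg, hpz⟩ := G2 y hy hp
  -- w = (y+h)/r * r - h
  set c := (y + h) / r with hc
  have hw1 : x + h < c * r := by
    have := (Nat.div_lt_iff_lt_mul hrpos).1 hreg'
    exact this
  have hw2 : c * r ≤ y + h := Nat.div_mul_le_self _ _
  have hzw : c * r ≤ z + h := by rw [← hzreg]; exact Nat.div_mul_le_self _ _
  have hc1 : 1 ≤ c := Nat.lt_of_le_of_lt (Nat.zero_le _) hreg'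
  have hcr : (c - 1) * r + r = c * r := by
    have : c - 1 + 1 = c := by omega
    calc (c - 1) * r + r = (c - 1 + 1) * r := by ring
      _ = c * r := by rw [this]
  refine G1 x hx ?_
  intro z' hz' hz'reg
  have hz'w : z' + h < c * r := by
    have : (z' + h) / r < c := by rw [hz'reg]; exact hreg'
    exact (Nat.div_lt_iff_lt_mul hrpos).1 this
  by_cases hz'L : z' < L
  · exact hp5L z' hz' hz'L
  have hzU : z < U := by
    by_contra h'
    exact hp5U z hz (by omega) hpz
  refine hp5s z' z (by omega) hz ?_ hpz
  -- both in column c - 1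
  have hcc : c - 1 + 1 = c := by omega
  have e3 : z' / r = c - 1 := Nat.div_eq_of_lt_le (by omega) (by rw [hcc]; omega)
  have e4 : z / r = c - 1 := Nat.div_eq_of_lt_le (by omega) (by rw [hcc]; omega)
  rw [e3, e4]

end H69.HS
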