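import Mathlib
import Pool.Agent.H31.HS.Stat
import Pool.Agent.H31.HS.LinF
import Pool.Agent.H31.HS.BitF1
import Pool.Agent.H69.HS.ColPure
import Pool.Agent.H69.HS.ColRank

/-!
# COLUMNSORT on machines (helper69, MP_8a058f_lc, proofs 333)

`columnsort`: `k` divisible by `4`; the low `N` quarter digits can be sorted in `c N * r0` steps.
-/

set_option autoImplicit false

namespace H69.HS

open Finset Classical Pool.Agent.H31.HS

variable {V Ω R X : Type} {m : ℕ}

/-! ### permutations of the nodes given by permutations of the numbers -/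

/-- permutation of the numbers from an injective function -/
noncomputable def finPerm (n : ℕ) (g : ℕ → ℕ) (hg : ∀ x, x < n → g x < n)
    (hi : ∀ x y, x < n → y < n → g x = g y → x = y) : Equiv.Perm (Fin n) :=
  Equiv.ofBijective (fun x : Fin n => (⟨g x.val, hg x.val x.isLt⟩ : Fin n))
    (Finite.injective_iff_bijective.1 fun x y h =>
      Fin.ext (hi x.val y.val x.isLt y.isLt (congrArg Fin.val h)))

lemma finPerm_val {n : ℕ} {g : ℕ → ℕ} {hg : ∀ x, x < n → g x < n}
    {hi : ∀ x y, x < n → y < n → g x = g y → x = y} (x : Fin n) : (finPerm n g hg hi x).val = g x.val := rfl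

/-- permutation of the nodes -/
def numPerm (B : Blk V m) (σ : Equiv.Perm (Fin (2 ^ m))) : Equiv.Perm V where
  toFun v := B.nd v (σ ⟨B.pos v, B.pos_lt v⟩).val
  invFun v := B.nd v (σ.symm ⟨B.pos v, B.pos_lt v⟩).val
  left_inv v := by
    have h1 : B.pos (B.nd v (σ ⟨B.pos v, B.pos_lt v⟩).val) = (σ ⟨B.pos v, B.pos_lt v⟩).val :=
      B.pos_nd v _ (Fin.isLt _)
    have h2 : (⟨B.pos (B.nd v (σ ⟨B.pos v, B.pos_lt v⟩).val), B.pos_lt _⟩ : Fin (2 ^ m))
        = σ ⟨B.pos v, B.pos_lt v⟩ := Fin.ext h1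
    show B.nd (B.nd v (σ ⟨B.pos v, B.pos_lt v⟩).val)
      (σ.symm ⟨B.pos (B.nd v (σ ⟨B.pos v, B.pos_lt v⟩).val), B.pos_lt _⟩).val = v
    rw [h2, Equiv.symm_apply_apply, B.nd_nd v _ _ (Fin.isLt _) (B.pos_lt v), B.nd_pos]
  right_inv v := by
    have h1 : B.pos (B.nd v (σ.symm ⟨B.pos v, B.pos_lt v⟩).val) = (σ.symm ⟨B.pos v, B.pos_lt v⟩).val :=
      B.pos_nd v _ (Fin.isLt _)
    have h2 : (⟨B.pos (B.nd v (σ.symm ⟨B.pos v, B.pos_lt v⟩).val), B.pos_lt _⟩ : Fin (2 ^ m))
        = σ.symm ⟨B.pos v, B.pos_lt v⟩ := Fin.ext h1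
    show B.nd (B.nd v (σ.symm ⟨B.pos v, B.pos_lt v⟩).val)
      (σ ⟨B.pos (B.nd v (σ.symm ⟨B.pos v, B.pos_lt v⟩).val), B.pos_lt _⟩).val = v
    rw [h2, Equiv.apply_symm_apply, B.nd_nd v _ _ (Fin.isLt _) (B.pos_lt v), B.nd_pos]

lemma numPerm_nd (B : Blk V m) (σ : Equiv.Perm (Fin (2 ^ m))) (v : V) (x : Fin (2 ^ m)) :
    numPerm B σ (B.nd v x.val) = B.nd v (σ x).val := by
  have h1 : B.pos (B.nd v x.val) = x.val := B.pos_nd v _ (Fin.isLt _)
  have h2 : (⟨B.pos (B.nd v x.val), B.pos_lt _⟩ : Fin (2 ^ m)) = x := Fin.ext h1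
  show B.nd (B.nd v x.val) (σ ⟨B.pos (B.nd v x.val), B.pos_lt _⟩).val = B.nd v (σ x).val
  rw [h2, B.nd_nd v _ _ (Fin.isLt _) (Fin.isLt _)]

lemma numPerm_cls (B : Blk V m) (σ : Equiv.Perm (Fin (2 ^ m))) (v : V) : B.cls v (numPerm B σ v) :=
  B.cls_nd v (Fin.isLt _)

lemma numPerm_cls' (B : Blk V m) (σ : Equiv.Perm (Fin (2 ^ m))) (v : V) :
    B.cls v ((numPerm B σ).symm v) :=
  B.cls_nd v (Fin.isLt _)

/-! ### preserved properties -/

/-- same items -/
def Same (B : Blk V m) (a b : V → Option X × Option R) : Prop :=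
  (∀ v, (b v).1.isSome = true → ∃ u, B.cls v u ∧ b v = a u) ∧
    (∀ u, (a u).1.isSome = true → ∃ v, B.cls u v ∧ b v = a u)

lemma Same.trans {B : Blk V m} {a b c : V → Option X × Option R} (h : Same B a b) (h' : Same B b c) :
    Same B a c := by
  constructor
  · intro v hv
    obtain ⟨u, h1, h2⟩ := h'.1 v hv
    obtain ⟨z, h3, h4⟩ := h.1 u (by rw [← h2]; exact hv)
    exact ⟨z, B.cls_trans h1 h3, h2.trans h4⟩
  · intro u hu
    obtain ⟨v, h1, h2⟩ := h.2 u hu
    obtain ⟨z, h3, h4⟩ := h'.2 v (by rw [h2]; exact hu)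
    exact ⟨z, B.cls_trans h1 h3, h4.trans h2⟩

/-- everything we know about an intermediate array -/
structure Good (B : Blk V m) (key : X × Option R → ℕ) (a0 a : V → Option X × Option R) : Prop where
  dist : Dist B key a
  same : Same B a0 a

/-- empty places hold the empty item -/
def Clean (a : V → Option X × Option R) : Prop := ∀ v, (a v).1 = none → a v = emp

lemma good_perm {B : Blk V m} {key : X × Option R → ℕ} {a0 a : V → Option X × Option R}
    (h : Good B key a0 a) (Φ : Equiv.Perm V) (hΦ : ∀ v, B.cls v (Φ v)) :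
    Good B key a0 (fun u => a (Φ u)) := by
  constructor
  · intro v u hc hv hu he
    have h1 : B.cls (Φ v) (Φ u) := B.cls_trans (B.cls_symm (hΦ v)) (B.cls_trans hc (hΦ u))
    exact Φ.injective (h.dist _ _ h1 hv hu he)
  · refine h.same.trans ⟨fun v _ => ⟨Φ v, hΦ v, rfl⟩, fun u _ => ⟨Φ.symm u, ?_, by simp⟩⟩
    have := hΦ (Φ.symm u)
    rw [Equiv.apply_symm_apply] at this
    exact B.cls_symm this

lemma clean_perm {a : V → Option X × Option R} (h : Clean a) (Φ : Equiv.Perm V) :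
    Clean (fun u => a (Φ u)) := fun v hv => h (Φ v) hv

/-- sorting of the classes of a finer numbering, where `good` holds -/
lemma good_hyb {l : ℕ} {B : Blk V m} {Bc : Blk V l} {key : X × Option R → ℕ}
    {a0 a b0 b : V → Option X × Option R} (hsub : ∀ v u, Bc.cls v u → B.cls v u)
    (good : V → Prop) (hgood : ∀ v u, Bc.cls v u → good v → good u)
    (h : Good B key a0 a) (hS : SortSpec Bc key a b0) (hb : ∀ v, good v → b v = b0 v)
    (hb' : ∀ v, ¬ good v → b v = a v) : Good B key a0 b := by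
  obtain ⟨s1, s2, s3, s4⟩ := hS
  have hsrc : ∀ v, (b v).1.isSome = true → ∃ u, Bc.cls v u ∧ b v = a u := by
    intro v hv
    by_cases hg : good v
    · rw [hb v hg] at hv ⊢; exact s1 v hv
    · exact ⟨v, Bc.cls_refl v, hb' v hg⟩
  constructor
  · intro v u hc hv hu he
    obtain ⟨v', hv1, hv2⟩ := hsrc v hv
    obtain ⟨u', hu1, hu2⟩ := hsrc u hu
    have h1 : B.cls v' u' := B.cls_trans (B.cls_symm (hsub _ _ hv1)) (B.cls_trans hc (hsub _ _ hu1))
    have h2 := h.dist v' u' h1 (by rw [← hv2]; exact hv) (by rw [← hu2]; exact hu)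
      (by rw [← hv2, ← hu2]; exact he)
    subst h2
    have h3 : Bc.cls v u := Bc.cls_trans hv1 (Bc.cls_symm hu1)
    by_cases hg : good v
    · have hg' := hgood v u h3 hg
      have e1 : b v = b0 v := hb v hg
      have e2 : b u = b0 u := hb u hg'
      rcases Nat.lt_trichotomy (Bc.pos v) (Bc.pos u) with h' | h' | h'
      · have := sorted_lt s4 h3 h' (by rw [← e2]; exact hu)
        rw [← e1, ← e2, he] at this
        exact absurd this (lt_irrefl _)
      · exact Bc.eq_of_cls h3 h'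
      · have := sorted_lt s4 (Bc.cls_symm h3) h' (by rw [← e1]; exact hv)
        rw [← e1, ← e2, he] at this
        exact absurd this (lt_irrefl _)
    · have hg' : ¬ good u := fun h' => hg (hgood u v (Bc.cls_symm h3) h')
      refine h.dist v u hc ?_ ?_ ?_
      · rw [← hb' v hg]; exact hv
      · rw [← hb' u hg']; exact hu
      · rw [← hb' v hg, ← hb' u hg']; exact he
  · refine h.same.trans ⟨fun v hv => ?_, fun u hu => ?_⟩
    · obtain ⟨u, h1, h2⟩ := hsrc v hv
      exact ⟨u, hsub _ _ h1, h2⟩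
    · by_cases hg : good u
      · obtain ⟨v, h1, h2⟩ := s2 u hu
        exact ⟨v, hsub _ _ h1, by rw [hb v (hgood u v h1 hg)]; exact h2⟩
      · exact ⟨u, B.cls_refl u, hb' u hg⟩

lemma good_sort {l : ℕ} {B : Blk V m} {Bc : Blk V l} {key : X × Option R → ℕ}
    {a0 a b : V → Option X × Option R} (hsub : ∀ v u, Bc.cls v u → B.cls v u)
    (h : Good B key a0 a) (hS : SortSpec Bc key a b) : Good B key a0 b :=
  good_hyb hsub (fun _ => True) (fun _ _ _ _ => trivial) h hS (fun _ _ => rfl) (fun _ h' => absurd trivial h')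

/-- labels of an array with the same items -/
lemma same_sm {S : ℕ} {B : Blk V m} {a b : V → Ω → Option X × Option R} (hs : Sm S a)
    (h : ∀ w, Same B (fun v => a v w) (fun v => b v w)) : Sm S b := by
  refine Sm.of_range hs fun v w => ?_
  rcases hv : (b v w).1 with _ | x
  · exact Or.inl rfl
  · obtain ⟨u, _, h2⟩ := (h w).1 v (by
      show (b v w).1.isSome = true
      rw [hv]; rfl)
    exact Or.inr ⟨u, w, h2⟩

/-! ### the columns -/

section cols

variable (BN : Blk V m) {l' s' : ℕ}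

lemma col_cls (hl : 0 + l' ≤ m) (v u : V) (h : (BN.bits 0 l' hl).cls v u) : BN.cls v u :=
  ((bits_cls BN hl v u).1 h).1

lemma col_nd (hl : 0 + l' ≤ m) (v0 : V) (c i j : ℕ) (hi : i < 2 ^ l') (hj : j < 2 ^ l')
    (hc : c * 2 ^ l' + i < 2 ^ m) (hc' : c * 2 ^ l' + j < 2 ^ m) :
    (BN.bits 0 l' hl).nd (BN.nd v0 (c * 2 ^ l' + i)) j = BN.nd v0 (c * 2 ^ l' + j) := by
  show BN.nd (BN.nd v0 (c * 2 ^ l' + i)) (Blk.rep 0 l' (BN.pos (BN.nd v0 (c * 2 ^ l' + i))) (j % 2 ^ l')) = _
  rw [BN.pos_nd v0 _ hc, Nat.mod_eq_of_lt hj]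
  have h1 : Blk.rep 0 l' (c * 2 ^ l' + i) j = c * 2 ^ l' + j := by
    unfold Blk.rep
    rw [Nat.zero_add, pow_zero, Nat.mod_one, Nat.mul_one, Nat.add_zero]
    have : (c * 2 ^ l' + i) / 2 ^ l' = c := by
      rw [Nat.mul_comm, Nat.mul_add_div (by positivity), Nat.div_eq_of_lt hi, Nat.add_zero]
    rw [this]
  rw [h1, BN.nd_nd v0 _ _ hc hc']

/-- the columns of an array sorted by `SortSpec` -/
lemma colS_of_sort (hl : 0 + l' ≤ m) (hm : 2 ^ m = 2 ^ l' * s') (key : X × Option R → ℕ)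
    (a b : V → Option X × Option R) (hD : Dist BN key a) (hS : SortSpec (BN.bits 0 l' hl) key a b)
    (v0 : V) (t : ℕ) (c : ℕ) (hc : c < s') (i : ℕ) (hi : i < 2 ^ l') :
    kv key (b (BN.nd v0 (c * 2 ^ l' + i))) ≤ (t : WithTop ℕ) ↔
      i < ((range (2 ^ l')).filter fun j => kv key (a (BN.nd v0 (c * 2 ^ l' + j))) ≤ (t : WithTop ℕ)).card := by
  have hb : ∀ j, j < 2 ^ l' → c * 2 ^ l' + j < 2 ^ m := by
    intro j hj
    rw [hm]
    have : (c + 1) * 2 ^ l' ≤ s' * 2 ^ l' := Nat.mul_le_mul_right _ hc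
    nlinarith
  have hD' : Dist (BN.bits 0 l' hl) key a := fun v u hc => hD v u (col_cls BN hl v u hc)
  have h1 := count_of_sort (BN.bits 0 l' hl) key a b hD' hS (BN.nd v0 (c * 2 ^ l' + i)) t i hi
  rw [col_nd BN hl v0 c i i hi hi (hb i hi) (hb i hi)] at h1
  rw [h1]
  have h2 : ((range (2 ^ l')).filter fun j =>
      kv key (a ((BN.bits 0 l' hl).nd (BN.nd v0 (c * 2 ^ l' + i)) j)) ≤ (t : WithTop ℕ))
      = ((range (2 ^ l')).filter fun j => kv key (a (BN.nd v0 (c * 2 ^ l' + j))) ≤ (t : WithTop ℕ)) := by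
    refine filter_congr fun j hj => ?_
    rw [mem_range] at hj
    rw [col_nd BN hl v0 c i j hi hj (hb i hi) (hb j hj)]
  rw [h2]

end cols

/-- the transposition of the places -/
lemma transpose_lt {r s x : ℕ} (hs : 0 < s) (hx : x < r * s) : x % s * r + x / s < r * s := by
  have h1 : x % s < s := Nat.mod_lt _ hs
  have h2 : x / s < r := Nat.div_lt_of_lt_mul (by rw [Nat.mul_comm]; exact hx)
  have h3 : (x % s + 1) * r ≤ s * r := Nat.mul_le_mul_right _ h1
  nlinarith

lemma transpose_inj {r s x y : ℕ} (hs : 0 < s) (hx : x < r * s) (hy : y < r * s)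
    (h : x % s * r + x / s = y % s * r + y / s) : x = y := by
  have h2 : x / s < r := Nat.div_lt_of_lt_mul (by rw [Nat.mul_comm]; exact hx)
  have h2' : y / s < r := Nat.div_lt_of_lt_mul (by rw [Nat.mul_comm]; exact hy)
  have hr : 0 < r := Nat.lt_of_le_of_lt (Nat.zero_le _) h2
  have e1 : (x % s * r + x / s) / r = x % s := by
    rw [Nat.mul_comm, Nat.mul_add_div hr, Nat.div_eq_of_lt h2, Nat.add_zero]
  have e1' : (y % s * r + y / s) / r = y % s := by
    rw [Nat.mul_comm, Nat.mul_add_div hr, Nat.div_eq_of_lt h2', Nat.add_zero]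
  have e2 : (x % s * r + x / s) % r = x / s := by
    rw [Nat.mul_comm, Nat.mul_add_mod, Nat.mod_eq_of_lt h2]
  have e2' : (y % s * r + y / s) % r = y / s := by
    rw [Nat.mul_comm, Nat.mul_add_mod, Nat.mod_eq_of_lt h2']
  have ed : x / s = y / s := by rw [← e2, ← e2', h]
  have em : x % s = y % s := by rw [← e1, ← e1', h]
  rw [← Nat.div_add_mod x s, ← Nat.div_add_mod y s, ed, em]

lemma shift_inj {n d x y : ℕ} (hx : x < n) (hy : y < n) (h : (x + d) % n = (y + d) % n) : x = y := by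
  have h1 : x ≡ y [MOD n] := Nat.ModEq.add_right_cancel' d h
  have h2 := Nat.ModEq.eq_of_lt_of_lt h1 hx hy
  exact h2

/-- the induction step: columns sorted in `c'` steps, permutations inside `BN` in `cp` steps -/
theorem col_step {M : Mach V Ω R} {Lam S l' e c' cp : ℕ} (BN : Blk V m) (hl : 0 + l' ≤ m) (hm : m = l' + e)
    (hle : 2 * e + 1 ≤ l') (hS : S + 1 ≤ Lam)
    (hcol : CanS M S (BN.bits 0 l' hl) (fun _ => True) c')
    (hperm : ∀ (Φ : Equiv.Perm V), (∀ v, BN.cls v (Φ v)) → ∀ (X : Type) (P : M.Pl)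
      (a : V → Ω → Option X × Option R), Sm S a → (∀ v, M.Has P v (a v)) →
        M.Do cp P (fun P' => ∀ v, M.Has P' (Φ v) (a v))) :
    CanS M S BN (fun _ => True) (c' + (cp + (c' + (cp + (c' + (cp + (c' + cp))))))) := by
  intro X key P a hkey hsm ha hD _
  set r := 2 ^ l' with hr
  set s := 2 ^ e with hs
  have hrs : 2 ^ m = r * s := by rw [hm, pow_add]
  have hspos : 0 < s := by positivity
  have hrpos : 0 < r := by positivity
  have hsr : s ∣ r := pow_dvd_pow 2 (by omega)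
  have hss : 2 * (s * s) ≤ r := by
    rw [hs, hr, ← pow_add, ← pow_succ']
    exact Nat.pow_le_pow_right (by norm_num) (by omega)
  have hr2 : 2 ∣ r := by
    rw [hr]
    exact dvd_pow_self 2 (by omega)
  let σ : Equiv.Perm (Fin (2 ^ m)) := finPerm (2 ^ m) (fun x => x % s * r + x / s)
    (fun x hx => by rw [hrs] at hx ⊢; exact transpose_lt hspos hx)
    (fun x y hx hy h => by rw [hrs] at hx hy; exact transpose_inj hspos hx hy h)
  let τ : Equiv.Perm (Fin (2 ^ m)) := finPerm (2 ^ m) (fun x => (x + r / 2) % (r * s))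
    (fun x _ => by rw [hrs]; exact Nat.mod_lt _ (by positivity))
    (fun x y hx hy h => by rw [hrs] at hx hy; exact shift_inj hx hy h)
  have hsub := col_cls BN hl
  have hgood0 : ∀ w, Good BN (key w) (fun v => a v w) (fun v => a v w) := fun w =>
    ⟨hD w, ⟨fun v _ => ⟨v, BN.cls_refl v, rfl⟩, fun v _ => ⟨v, BN.cls_refl v, rfl⟩⟩⟩
  have hdc : ∀ {b : V → Option X × Option R} {w : Ω}, Dist BN (key w) b →
      Dist (BN.bits 0 l' hl) (key w) b := fun h v u hc => h v u (hsub v u hc)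
  -- step 1
  refine Mach.Do.bind (hcol X key P a hkey hsm ha (fun w => hdc (hD w)) (fun _ => trivial)) ?_
  rintro P1 _ ⟨a1, ha1, hs1⟩
  have hg1 : ∀ w, Good BN (key w) (fun v => a v w) (fun v => a1 v w) := fun w =>
    good_sort hsub (hgood0 w) (hs1 w)
  have hsm1 : Sm S a1 := same_sm hsm fun w => (hg1 w).same
  -- step 2
  refine Mach.Do.bind (hperm (numPerm BN σ) (numPerm_cls BN σ) X P1 a1 hsm1 ha1) ?_
  intro P2 _ ha2'
  let a2 : V → Ω → Option X × Option R := fun u => a1 ((numPerm BN σ).symm u)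
  have ha2 : ∀ v, M.Has P2 v (a2 v) := by
    intro v
    have := ha2' ((numPerm BN σ).symm v)
    rwa [Equiv.apply_symm_apply] at this
  have hg2 : ∀ w, Good BN (key w) (fun v => a v w) (fun v => a2 v w) := fun w =>
    good_perm (hg1 w) (numPerm BN σ).symm (numPerm_cls' BN σ)
  have hsm2 : Sm S a2 := same_sm hsm fun w => (hg2 w).same
  -- step 3
  refine Mach.Do.bind (hcol X key P2 a2 hkey hsm2 ha2 (fun w => hdc (hg2 w).dist) (fun _ => trivial)) ?_
  rintro P3 _ ⟨a3, ha3, hs3⟩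
  have hg3 : ∀ w, Good BN (key w) (fun v => a v w) (fun v => a3 v w) := fun w =>
    good_sort hsub (hg2 w) (hs3 w)
  have hsm3 : Sm S a3 := same_sm hsm fun w => (hg3 w).same
  -- step 4
  refine Mach.Do.bind (hperm (numPerm BN σ).symm (numPerm_cls' BN σ) X P3 a3 hsm3 ha3) ?_
  intro P4 _ ha4'
  let a4 : V → Ω → Option X × Option R := fun u => a3 (numPerm BN σ u)
  have ha4 : ∀ v, M.Has P4 v (a4 v) := by
    intro v
    have := ha4' (numPerm BN σ v)
    rwa [Equiv.symm_apply_apply] at this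
  have hg4 : ∀ w, Good BN (key w) (fun v => a v w) (fun v => a4 v w) := fun w =>
    good_perm (hg3 w) (numPerm BN σ) (numPerm_cls BN σ)
  have hsm4 : Sm S a4 := same_sm hsm fun w => (hg4 w).same
  -- step 5
  refine Mach.Do.bind (hcol X key P4 a4 hkey hsm4 ha4 (fun w => hdc (hg4 w).dist) (fun _ => trivial)) ?_
  rintro P5 _ ⟨a5, ha5, hs5⟩
  have hg5 : ∀ w, Good BN (key w) (fun v => a v w) (fun v => a5 v w) := fun w =>
    good_sort hsub (hg4 w) (hs5 w)
  have hsm5 : Sm S a5 := same_sm hsm fun w => (hg5 w).same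
  have hcl5 : ∀ w, Clean (fun v => a5 v w) := fun w => (hs5 w).2.2.1
  -- step 6
  refine Mach.Do.bind (hperm (numPerm BN τ) (numPerm_cls BN τ) X P5 a5 hsm5 ha5) ?_
  intro P6 _ ha6'
  let a6 : V → Ω → Option X × Option R := fun u => a5 ((numPerm BN τ).symm u)
  have ha6 : ∀ v, M.Has P6 v (a6 v) := by
    intro v
    have := ha6' ((numPerm BN τ).symm v)
    rwa [Equiv.apply_symm_apply] at this
  have hg6 : ∀ w, Good BN (key w) (fun v => a v w) (fun v => a6 v w) := fun w =>
    good_perm (hg5 w) (numPerm BN τ).symm (numPerm_cls' BN τ)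
  have hsm6 : Sm S a6 := same_sm hsm fun w => (hg6 w).same
  have hcl6 : ∀ w, Clean (fun v => a6 v w) := fun w => clean_perm (hcl5 w) _
  -- step 7
  refine Mach.Do.bind (hcol X key P6 a6 hkey hsm6 ha6 (fun w => hdc (hg6 w).dist) (fun _ => trivial)) ?_
  rintro P7 hP7 ⟨b6, hb6, hs7⟩
  let good : V → Prop := fun v => r ≤ BN.pos v
  let a7 : V → Ω → Option X × Option R := fun v => if good v then b6 v else a6 v
  have ha7 : ∀ v, M.Has P7 v (a7 v) := by
    intro v
    by_cases h : good v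
    · simp only [a7, if_pos h]; exact hb6 v
    · simp only [a7, if_neg h]; exact (ha6 v).mono hP7
  have hgoodc : ∀ v u, (BN.bits 0 l' hl).cls v u → good v → good u := by
    intro v u hc hv
    have h1 := ((bits_cls BN hl v u).1 hc).2.1
    rw [Nat.zero_add] at h1
    have h2 : 1 ≤ BN.pos v / 2 ^ l' := (Nat.one_le_div_iff hrpos).2 hv
    rw [h1] at h2
    exact (Nat.one_le_div_iff hrpos).1 h2
  have hg7 : ∀ w, Good BN (key w) (fun v => a v w) (fun v => a7 v w) := fun w =>
    good_hyb hsub good hgoodc (hg6 w) (hs7 w) (fun v hv => by simp only [a7, if_pos hv])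
      (fun v hv => by simp only [a7, if_neg hv])
  have hsm7 : Sm S a7 := same_sm hsm fun w => (hg7 w).same
  have hcl7 : ∀ w, Clean (fun v => a7 v w) := by
    intro w v hv
    by_cases h : good v
    · simp only [a7, if_pos h] at hv ⊢; exact (hs7 w).2.2.1 v hv
    · simp only [a7, if_neg h] at hv ⊢; exact hcl6 w v hv
  -- step 8
  refine (hperm (numPerm BN τ).symm (numPerm_cls' BN τ) X P7 a7 hsm7 ha7).mono le_rfl ?_
  intro P8 _ ha8'
  let a8 : V → Ω → Option X × Option R := fun u => a7 (numPerm BN τ u)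
  have ha8 : ∀ v, M.Has P8 v (a8 v) := by
    intro v
    have := ha8' (numPerm BN τ v)
    rwa [Equiv.symm_apply_apply] at this
  have hg8 : ∀ w, Good BN (key w) (fun v => a v w) (fun v => a8 v w) := fun w =>
    good_perm (hg7 w) (numPerm BN τ) (numPerm_cls BN τ)
  refine ⟨a8, ha8, fun w => ⟨(hg8 w).same.1, (hg8 w).same.2, clean_perm (hcl7 w) _, ?_⟩⟩
  -- sorted
  intro v u hc _ hp hu
  simp only at hu
  obtain ⟨t, ht⟩ := kv_active (key := key w) hu
  -- nodes by number
  have hnσ : ∀ x, x < r * s → numPerm BN σ (BN.nd v x) = BN.nd v (x % s * r + x / s) := by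
    intro x hx
    exact numPerm_nd BN σ v ⟨x, by rw [hrs]; exact hx⟩
  have hnτ : ∀ x, x < r * s → numPerm BN τ (BN.nd v x) = BN.nd v ((x + r / 2) % (r * s)) := by
    intro x hx
    exact numPerm_nd BN τ v ⟨x, by rw [hrs]; exact hx⟩
  have hcolS : ∀ (b b' : V → Option X × Option R), Dist BN (key w) b →
      SortSpec (BN.bits 0 l' hl) (key w) b b' →
      ColS r s (fun x => kv (key w) (b (BN.nd v x)) ≤ (t : WithTop ℕ))
        (fun x => kv (key w) (b' (BN.nd v x)) ≤ (t : WithTop ℕ)) := by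
    intro b b' hb hbs c hc i hi
    refine (colS_of_sort BN hl hrs (key w) b b' hb hbs v t c hc i hi).trans
      (iff_of_eq (congrArg (fun z => i < z) ?_))
    congr!
  have key8 := colpure r s hspos hsr hss hr2
    (fun x => kv (key w) (a (BN.nd v x) w) ≤ (t : WithTop ℕ))
    (fun x => kv (key w) (a1 (BN.nd v x) w) ≤ (t : WithTop ℕ))
    (fun x => kv (key w) (a2 (BN.nd v x) w) ≤ (t : WithTop ℕ))
    (fun x => kv (key w) (a3 (BN.nd v x) w) ≤ (t : WithTop ℕ))
    (fun x => kv (key w) (a4 (BN.nd v x) w) ≤ (t : WithTop ℕ))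
    (fun x => kv (key w) (a5 (BN.nd v x) w) ≤ (t : WithTop ℕ))
    (fun x => kv (key w) (a6 (BN.nd v x) w) ≤ (t : WithTop ℕ))
    (fun x => kv (key w) (a7 (BN.nd v x) w) ≤ (t : WithTop ℕ))
    (fun x => kv (key w) (a8 (BN.nd v x) w) ≤ (t : WithTop ℕ))
    (hcolS _ _ (hD w) (hs1 w))
    (fun x hx => by
      show kv (key w) (a1 ((numPerm BN σ).symm (BN.nd v (x % s * r + x / s))) w) ≤ _ ↔ _
      rw [← hnσ x hx, Equiv.symm_apply_apply])
    (hcolS _ _ (hg2 w).dist (hs3 w))
    (fun x hx => by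
      show kv (key w) (a3 (numPerm BN σ (BN.nd v x)) w) ≤ _ ↔ _
      rw [hnσ x hx])
    (hcolS _ _ (hg4 w).dist (hs5 w))
    (fun x hx => by
      show kv (key w) (a5 ((numPerm BN τ).symm (BN.nd v ((x + r / 2) % (r * s)))) w) ≤ _ ↔ _
      rw [← hnτ x hx, Equiv.symm_apply_apply])
    (fun c hc1 hc i hi => by
      have h1 := hcolS _ _ (hg6 w).dist (hs7 w) c hc i hi
      refine Iff.trans ?_ h1
      have h2 : c * r + i < 2 ^ m := by
        rw [hrs]
        have : (c + 1) * r ≤ s * r := Nat.mul_le_mul_right _ hc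
        nlinarith
      have h3 : good (BN.nd v (c * r + i)) := by
        show r ≤ BN.pos (BN.nd v (c * r + i))
        rw [BN.pos_nd v _ h2]
        nlinarith
      show kv (key w) ((a7 (BN.nd v (c * r + i))) w) ≤ _ ↔ kv (key w) (b6 (BN.nd v (c * r + i)) w) ≤ _
      simp only [a7, if_pos h3])
    (fun i hi => by
      have h2 : i < 2 ^ m := by
        rw [hrs]
        exact lt_of_lt_of_le hi (Nat.le_mul_of_pos_right _ hspos)
      have h3 : ¬ good (BN.nd v i) := by
        show ¬ r ≤ BN.pos (BN.nd v i)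
        rw [BN.pos_nd v _ h2]
        omega
      simp only [a7, if_neg h3])
    (fun x hx => by
      show kv (key w) (a7 (numPerm BN τ (BN.nd v x)) w) ≤ _ ↔ _
      rw [hnτ x hx])
  have h9 := key8 (BN.pos v) (BN.pos u) hp.le (by rw [← hrs]; exact BN.pos_lt u) (by
    have e1 : BN.nd v (BN.pos u) = u := hc
    show kv (key w) (a8 (BN.nd v (BN.pos u)) w) ≤ (t : WithTop ℕ)
    rw [e1]
    exact ht.le)
  change kv (key w) (a8 (BN.nd v (BN.pos v)) w) ≤ (t : WithTop ℕ) at h9
  rw [BN.nd_pos] at h9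
  show kv (key w) (a8 v w) < kv (key w) (a8 u w)
  rw [ht]
  refine lt_of_le_of_ne h9 fun he => ?_
  have hv : (a8 v w).1.isSome = true := kv_ne_top.1 (by
    show kv (key w) (a8 v w) ≠ ⊤
    rw [he]; exact WithTop.coe_ne_top)
  have h10 := (hg8 w).dist v u hc hv hu (by
    show kv (key w) (a8 v w) = kv (key w) (a8 u w)
    rw [he]; exact ht.symm)
  rw [h10] at hp
  exact lt_irrefl _ hp

/-- sorting of blocks of length one -/
lemma sort_zero {M : Mach V Ω R} {S : ℕ} (B : Blk V 0) (c : ℕ) : CanS M S B (fun _ => True) c := by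
  intro X key P a hkey hsm ha hD _
  have h0 : ∀ v, B.pos v = 0 := fun v => by have := B.pos_lt v; simpa using this
  have hcls : ∀ v u, B.cls v u → v = u := fun v u h => B.eq_of_cls h (by rw [h0, h0])
  let b : V → Ω → Option X × Option R := fun v w => if (a v w).1 = none then emp else a v w
  refine Mach.Do.pure ⟨b, fun v => ?_, fun w => ⟨?_, ?_, ?_, ?_⟩⟩
  · refine Mach.Has.det (ι := Unit) (a := fun _ => a v) (fun _ => ha v) ⟨fun w w' h _ => ?_, fun w r hr => ?_⟩
    · have h1 : a v w = a v w' := h ()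
      simp only [b, h1]
    · simp only [b] at hr
      split_ifs at hr with h'
      · simp [emp] at hr
      · exact ⟨(), hr⟩
  · intro v hv
    refine ⟨v, B.cls_refl v, ?_⟩
    simp only [b] at hv ⊢
    split_ifs at hv ⊢ with h'
    · simp [emp] at hv
    · rfl
  · intro u hu
    refine ⟨u, B.cls_refl u, ?_⟩
    simp only [b]
    rw [if_neg]
    intro h'
    rw [h'] at hu
    simp at hu
  · intro v hv
    simp only [b] at hv ⊢
    split_ifs at hv ⊢ with h'
    · rfl
    · exact absurd hv h'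
  · intro v u hc _ hp _
    rw [h0, h0] at hp
    exact absurd hp (lt_irrefl _)

/-- induction over `N`, explicit constant -/
private theorem columnsort_aux : ∀ N : ℕ, ∀ {V Ω R : Type} {m : ℕ} (M : Mach V Ω R) (Lam S k n r0 q : ℕ)
    (B : Blk V m), k = 4 * q → 1 ≤ q → Lines M Lam B k n r0 → S + 1 ≤ Lam → ∀ h : 0 + N * q ≤ m,
      CanS M S (B.bits 0 (N * q) h) (fun _ => True) (8 ^ N * r0) := by
  intro N
  induction N using Nat.strong_induction_on with
  | _ N ih =>
  intro V Ω R m M Lam S k n r0 q B hk hq hL hS h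
  have hmn : m = 4 * q * n := by rw [hL.hm, hk]
  have hNn : N ≤ 4 * n := by
    have h1 : N * q ≤ 4 * n * q := by nlinarith
    exact Nat.le_of_mul_le_mul_right h1 hq
  rcases Nat.eq_zero_or_pos N with h0 | hpos
  · subst h0
    have : ∀ (z : ℕ) (hz : z = 0) (hz' : 0 + z ≤ m), CanS M S (B.bits 0 z hz') (fun _ => True) (8 ^ 0 * r0) := by
      intro z hz hz'
      subst hz
      exact sort_zero _ _
    exact this _ (Nat.zero_mul q) h
  by_cases h4 : N ≤ 4
  · -- one round
    have hn : 1 ≤ n := by omega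
    have hk0 : k * 0 + k ≤ m := by
      rw [hmn, hk]; nlinarith
    have hR := hL.rnd 0 hk0 (by omega)
    have h1 : CanS M S (B.bits 0 (N * q) h) (fun _ => True) r0 := by
      refine sort_round hR hS _ ?_
      intro v u hc
      rw [bits_cls] at hc ⊢
      refine ⟨hc.1, ?_, ?_⟩
      · have h2 := hc.2.1
        rw [Nat.zero_add] at h2
        rw [Nat.mul_zero, Nat.zero_add]
        have h3 : k = N * q + (k - N * q) := by
          have : N * q ≤ 4 * q := Nat.mul_le_mul_right _ h4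
          omega
        rw [h3, pow_add, ← Nat.div_div_eq_div_mul, ← Nat.div_div_eq_div_mul, h2]
      · rw [Nat.mul_zero, pow_zero, Nat.mod_one, Nat.mod_one]
    intro X key P a hkey hsm ha hD hT
    refine (h1 X key P a hkey hsm ha hD hT).mono ?_ fun _ _ h => h
    exact Nat.le_mul_of_pos_left _ (by positivity)
  · -- columnsort
    rw [not_le] at h4
    set s0 := (N - 1) / 3 with hs0
    have hs01 : 1 ≤ s0 := by omega
    have hs02 : 3 * s0 + 1 ≤ N := by omega
    have hsplit : N * q = (N - s0) * q + s0 * q := by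
      rw [← Nat.add_mul]; congr 1; omega
    have hl : 0 + (N - s0) * q ≤ N * q := by rw [hsplit]; omega
    have hl2 : 0 + (N - s0) * q ≤ m := by omega
    have hIH := ih (N - s0) (by omega) M Lam S k n r0 q B hk hq hL hS hl2
    have hcol : CanS M S ((B.bits 0 (N * q) h).bits 0 ((N - s0) * q) hl) (fun _ => True) (8 ^ (N - s0) * r0) := by
      rw [bits_bits B h hl (by omega)]
      exact hIH
    have hle : 2 * (s0 * q) + 1 ≤ (N - s0) * q := by
      have h1 : (2 * s0 + 1) * q ≤ (N - s0) * q := Nat.mul_le_mul_right _ (by omega)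
      nlinarith
    set n' := (N + 3) / 4 with hn'
    have hn'n : 0 + n' ≤ n := by omega
    have hkn : k * 0 + k * n' ≤ m := by
      rw [hmn, hk, Nat.mul_zero, Nat.zero_add]
      exact Nat.mul_le_mul_left _ (by omega)
    have hL' := lines_bits hL hn'n hkn
    have hperm : ∀ (Φ : Equiv.Perm V), (∀ v, (B.bits 0 (N * q) h).cls v (Φ v)) → ∀ (X : Type) (P : M.Pl)
        (a : V → Ω → Option X × Option R), Sm S a → (∀ v, M.Has P v (a v)) →
          M.Do (2 * n' * r0) P (fun P' => ∀ v, M.Has P' (Φ v) (a v)) := by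
      intro Φ hΦ X P a hsm ha
      refine stat hL' Φ ?_ P a (hsm.sz.mono hS) ha
      intro v
      have hc := hΦ v
      rw [bits_cls] at hc ⊢
      refine ⟨hc.1, ?_, ?_⟩
      · have h2 := hc.2.1
        rw [Nat.zero_add] at h2
        rw [Nat.mul_zero, Nat.zero_add]
        have h3 : k * n' = N * q + (k * n' - N * q) := by
          have : N * q ≤ k * n' := by
            rw [hk]
            have : N ≤ 4 * n' := by omega
            calc N * q ≤ (4 * n') * q := Nat.mul_le_mul_right _ this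
              _ = 4 * q * n' := by ring
          omega
        rw [h3, pow_add, ← Nat.div_div_eq_div_mul, ← Nat.div_div_eq_div_mul, h2]
      · rw [Nat.mul_zero, pow_zero, Nat.mod_one, Nat.mod_one]
    have hstep := col_step (B.bits 0 (N * q) h) hl hsplit hle hS hcol hperm
    intro X key P a hkey hsm ha hD hT
    refine (hstep X key P a hkey hsm ha hD hT).mono ?_ fun _ _ h => h
    -- cost
    have h1 : 8 ^ (N - s0) ≤ 8 ^ (N - 1) := Nat.pow_le_pow_right (by norm_num) (by omega)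
    have h2 : 8 ^ N = 8 * 8 ^ (N - 1) := by
      rw [← pow_succ']; congr 1; omega
    have h3 : 2 * n' ≤ 8 ^ (N - 1) := by
      have h4 : N - 1 < 8 ^ (N - 1) := Nat.lt_pow_self (by norm_num)
      omega
    have h4 : 4 * 8 ^ (N - s0) + 4 * (2 * n') ≤ 8 ^ N := by
      rw [h2]; omega
    calc 8 ^ (N - s0) * r0 + (2 * n' * r0 + (8 ^ (N - s0) * r0 + (2 * n' * r0 +
          (8 ^ (N - s0) * r0 + (2 * n' * r0 + (8 ^ (N - s0) * r0 + 2 * n' * r0))))))
        = (4 * 8 ^ (N - s0) + 4 * (2 * n')) * r0 := by ring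
      _ ≤ 8 ^ N * r0 := Nat.mul_le_mul_right _ h4

/-- **COLUMNSORT.** -/
theorem columnsort : ∃ c : ℕ → ℕ, ∀ {V Ω R : Type} {m : ℕ} (M : Mach V Ω R) (Lam S k n r0 N : ℕ) (B : Blk V m),
    4 ∣ k → Lines M Lam B k n r0 → S + 1 ≤ Lam → ∀ h : 0 + N * (k / 4) ≤ m,
      CanS M S (B.bits 0 (N * (k / 4)) h) (fun _ => True) (c N * r0) := by
  refine ⟨fun N => 8 ^ N, ?_⟩
  intro V Ω R m M Lam S k n r0 N B hk4 hL hS h
  obtain ⟨q, hq⟩ := hk4
  have hkq : k / 4 = q := by rw [hq]; exact Nat.mul_div_cancel_left q (by norm_num)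
  have hq1 : 1 ≤ q := by
    have := hL.hk
    omega
  have : ∀ (q' : ℕ) (hq' : q' = q) (h' : 0 + N * q' ≤ m),
      CanS M S (B.bits 0 (N * q') h') (fun _ => True) (8 ^ N * r0) := by
    intro q' hq' h'
    subst hq'
    exact columnsort_aux N M Lam S k n r0 q' B hq hq1 hL hS h'
  exact this (k / 4) hkq h

/-- no items at all -/
lemma sort_none {M : Mach V Ω R} (B : Blk V m) (c : ℕ) : CanS M 0 B (fun _ => True) c := by
  intro X key P a hkey hsm ha hD _
  have hno : ∀ v w, (a v w).1 = none := by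
    obtain ⟨T, hT, h⟩ := hsm
    intro v w
    rcases h' : (a v w).1 with _ | x
    · rfl
    · exfalso
      have h1 := h v w x h'
      have h2 := card_pos.2 ⟨x, h1⟩
      omega
  refine Mach.Do.pure ⟨fun _ _ => emp, fun v => ?_, fun w => ⟨?_, ?_, ?_, ?_⟩⟩
  · refine Mach.Has.det (ι := Unit) (a := fun _ => a v) (fun _ => ha v) ⟨fun w w' h _ => rfl, fun w r hr => ?_⟩
    simp [emp] at hr
  · intro v hv
    simp [emp] at hv
  · intro u hu
    have h1 := hno u w
    change (a u w).1.isSome = true at hu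
    rw [h1] at hu
    exact absurd hu (by simp)
  · intro v _
    rfl
  · intro v u _ _ _ hu
    change (emp : Option X × Option R).1.isSome = true at hu
    exact absurd hu (by simp [emp])

/-- **COLUMNSORT**, in the form in which it is used. -/
theorem columnsort' : ∃ c : ℕ → ℕ, ∀ {V Ω R : Type} {m : ℕ} (M : Mach V Ω R) (S W Lam k n r0 N : ℕ) (B : Blk V m),
    4 ∣ k → Lines M Lam B k n r0 → 2 ^ m < W → S * W ^ 3 ≤ Lam → ∀ h : 0 + N * (k / 4) ≤ m,
      CanS M S (B.bits 0 (N * (k / 4)) h) (fun _ => True) (c N * r0) := by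
  obtain ⟨c, hc⟩ := columnsort
  refine ⟨c, ?_⟩
  intro V Ω R m M S W Lam k n r0 N B hk4 hL hW hS h
  rcases Nat.eq_zero_or_pos S with rfl | hpos
  · exact sort_none _ _
  · refine hc M Lam S k n r0 N B hk4 hL ?_ h
    have h1 : 1 ≤ 2 ^ m := Nat.one_le_two_pow
    have h2 : 2 ≤ W := by omega
    have h3 : 2 ^ 3 ≤ W ^ 3 := Nat.pow_le_pow_left h2 3
    have h4 : S * 2 ^ 3 ≤ S * W ^ 3 := Nat.mul_le_mul_left _ h3
    omega

end H69.HS
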