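import Mathlib

/-!
# The NUM LEMMA (helper69, MP_8a058f_lc, proofs 334)

`P y u c`: the task with parameters `y, u` can be done with cost at most `c` (monotone in `c`).
Two recursion rules R1 (`y < 6 u`) and R2 (`6 u <= y`); conclusion: `P y y c` for
`c = C * y * (sum over the dyadic scales between y1 and y of h)`, `y1 = Y0 * Q`.
-/

namespace H69.HS

open Finset

/-- The smoothed scale function. -/
noncomputable def ht (j0 J : ℕ) (h : ℕ → ℝ) (i : ℕ) : ℝ :=
  ∑ j ∈ Icc j0 J, h j * (15 / 16 : ℝ) ^ ((i - j) + (j - i))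

private lemma ht_nonneg (j0 J : ℕ) (h : ℕ → ℝ) (hh : ∀ i, 0 ≤ h i) (i : ℕ) : 0 ≤ ht j0 J h i :=
  sum_nonneg fun j _ => mul_nonneg (hh j) (by positivity)

private lemma ht_step (j0 J : ℕ) (h : ℕ → ℝ) (hh : ∀ i, 0 ≤ h i) (i i' : ℕ)
    (hi : i ≤ i' + 1) (hi' : i' ≤ i + 1) : ht j0 J h i ≤ 16 / 15 * ht j0 J h i' := by
  unfold ht
  rw [mul_sum]
  refine sum_le_sum fun j _ => ?_
  have h1 : (i' - j) + (j - i') ≤ (i - j) + (j - i) + 1 := by omega
  have h2 : (15 / 16 : ℝ) ^ ((i - j) + (j - i) + 1) ≤ (15 / 16 : ℝ) ^ ((i' - j) + (j - i')) :=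
    pow_le_pow_of_le_one (by norm_num) (by norm_num) h1
  rw [pow_succ] at h2
  have h3 := mul_le_mul_of_nonneg_left h2 (hh j)
  nlinarith [h3]

private lemma ht_far (j0 J : ℕ) (h : ℕ → ℝ) (hh : ∀ i, 0 ≤ h i) (i e : ℕ) :
    ht j0 J h i ≤ (16 / 15 : ℝ) ^ e * ht j0 J h (i + e) := by
  induction e with
  | zero => simp
  | succ e ih =>
    have h1 := ht_step j0 J h hh (i + e) (i + (e + 1)) (by omega) (by omega)
    have h2 : (0 : ℝ) ≤ (16 / 15 : ℝ) ^ e := by positivity
    calc ht j0 J h i ≤ (16 / 15 : ℝ) ^ e * ht j0 J h (i + e) := ih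
      _ ≤ (16 / 15 : ℝ) ^ e * (16 / 15 * ht j0 J h (i + (e + 1))) :=
        mul_le_mul_of_nonneg_left h1 h2
      _ = (16 / 15 : ℝ) ^ (e + 1) * ht j0 J h (i + (e + 1)) := by ring

private lemma le_ht (j0 J : ℕ) (h : ℕ → ℝ) (hh : ∀ i, 0 ≤ h i) (i : ℕ) (h0 : j0 ≤ i)
    (h1 : i ≤ J) : h i ≤ ht j0 J h i := by
  have h2 := single_le_sum (f := fun j => h j * (15 / 16 : ℝ) ^ ((i - j) + (j - i)))
    (fun j _ => mul_nonneg (hh j) (by positivity)) (mem_Icc.2 ⟨h0, h1⟩)
  simpa [ht] using h2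

private lemma geom_sum (j : ℕ) (S : Finset ℕ) :
    ∑ i ∈ S, (15 / 16 : ℝ) ^ ((i - j) + (j - i)) ≤ 32 := by
  classical
  have hgeo : ∀ n : ℕ, ∑ e ∈ range n, (15 / 16 : ℝ) ^ e ≤ 16 := by
    intro n
    have h1 := geom_sum_eq (by norm_num : (15 / 16 : ℝ) ≠ 1) n
    rw [h1]
    have : (0 : ℝ) ≤ (15 / 16 : ℝ) ^ n := by positivity
    rw [div_le_iff_of_neg (by norm_num)]
    linarith
  -- split S into i >= j and i < j
  rw [← sum_filter_add_sum_filter_not S (fun i => j ≤ i)]
  have hA : ∑ i ∈ S.filter (fun i => j ≤ i), (15 / 16 : ℝ) ^ ((i - j) + (j - i)) ≤ 16 := by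
    have h1 : ∑ i ∈ S.filter (fun i => j ≤ i), (15 / 16 : ℝ) ^ ((i - j) + (j - i))
        = ∑ e ∈ (S.filter (fun i => j ≤ i)).image (fun i => i - j), (15 / 16 : ℝ) ^ e := by
      rw [sum_image]
      · refine sum_congr rfl fun i hi => ?_
        have := (mem_filter.1 hi).2
        congr 1; omega
      · intro a ha b hb hab
        have ha' := (mem_filter.1 ha).2
        have hb' := (mem_filter.1 hb).2
        simp only at hab; omega
    rw [h1]
    obtain ⟨n, hn⟩ := Finset.exists_nat_subset_range ((S.filter (fun i => j ≤ i)).image (fun i => i - j))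
    exact (sum_le_sum_of_subset_of_nonneg hn fun _ _ _ => by positivity).trans (hgeo n)
  have hB : ∑ i ∈ S.filter (fun i => ¬ j ≤ i), (15 / 16 : ℝ) ^ ((i - j) + (j - i)) ≤ 16 := by
    have h1 : ∑ i ∈ S.filter (fun i => ¬ j ≤ i), (15 / 16 : ℝ) ^ ((i - j) + (j - i))
        = ∑ e ∈ (S.filter (fun i => ¬ j ≤ i)).image (fun i => j - i), (15 / 16 : ℝ) ^ e := by
      rw [sum_image]
      · refine sum_congr rfl fun i hi => ?_
        have := (mem_filter.1 hi).2
        congr 1; omega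
      · intro a ha b hb hab
        have ha' := (mem_filter.1 ha).2
        have hb' := (mem_filter.1 hb).2
        simp only at hab; omega
    rw [h1]
    obtain ⟨n, hn⟩ := Finset.exists_nat_subset_range ((S.filter (fun i => ¬ j ≤ i)).image (fun i => j - i))
    exact (sum_le_sum_of_subset_of_nonneg hn fun _ _ _ => by positivity).trans (hgeo n)
  linarith

private lemma sum_ht (j0 J : ℕ) (h : ℕ → ℝ) (hh : ∀ i, 0 ≤ h i) (S : Finset ℕ) :
    ∑ i ∈ S, ht j0 J h i ≤ 32 * ∑ j ∈ Icc j0 J, h j := by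
  unfold ht
  rw [sum_comm, mul_sum]
  refine sum_le_sum fun j _ => ?_
  rw [← mul_sum, mul_comm]
  exact mul_le_mul_of_nonneg_right (geom_sum j S) (hh j)

/-- `eta t`. -/
noncomputable def eta (j0 J : ℕ) (h : ℕ → ℝ) (t : ℕ) : ℝ := ht j0 J h (max (Nat.log 2 t) j0)

/-- `H y`. -/
noncomputable def HH (j0 J b : ℕ) (h : ℕ → ℝ) (y : ℕ) : ℝ :=
  ∑ t ∈ Ioc b y, eta j0 J h t / t

private lemma eta_nonneg (j0 J : ℕ) (h : ℕ → ℝ) (hh : ∀ i, 0 ≤ h i) (t : ℕ) :
    0 ≤ eta j0 J h t := ht_nonneg _ _ _ hh _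

private lemma HH_mono (j0 J b : ℕ) (h : ℕ → ℝ) (hh : ∀ i, 0 ≤ h i) {y y' : ℕ} (hy : y ≤ y') :
    HH j0 J b h y ≤ HH j0 J b h y' := by
  unfold HH
  refine sum_le_sum_of_subset_of_nonneg (Ioc_subset_Ioc_right hy) fun t _ _ => ?_
  exact div_nonneg (eta_nonneg _ _ _ hh _) (by positivity)

private lemma HH_nonneg (j0 J b : ℕ) (h : ℕ → ℝ) (hh : ∀ i, 0 ≤ h i) (y : ℕ) :
    0 ≤ HH j0 J b h y := sum_nonneg fun t _ => div_nonneg (eta_nonneg _ _ _ hh _) (by positivity)

/-- numbers within a factor two have close values of `eta` -/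
private lemma eta_close (j0 J : ℕ) (h : ℕ → ℝ) (hh : ∀ i, 0 ≤ h i) {s t : ℕ}
    (h1 : s ≤ t) (h2 : t ≤ 2 * s) :
    eta j0 J h s ≤ 16 / 15 * eta j0 J h t ∧ eta j0 J h t ≤ 16 / 15 * eta j0 J h s := by
  have hl1 : Nat.log 2 s ≤ Nat.log 2 t := Nat.log_mono_right h1
  have hl2 : Nat.log 2 t ≤ Nat.log 2 s + 1 := by
    rcases Nat.eq_zero_or_pos s with hs | hs
    · subst hs
      have : t = 0 := by omega
      subst this; simp
    · calc Nat.log 2 t ≤ Nat.log 2 (s * 2) := Nat.log_mono_right (by omega)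
        _ = Nat.log 2 s + 1 := Nat.log_mul_base (by norm_num) (by omega)
  constructor
  · exact ht_step _ _ _ hh _ _ (by omega) (by omega)
  · exact ht_step _ _ _ hh _ _ (by omega) (by omega)

/-- Block bound of `H`. -/
private lemma HH_block (j0 J b : ℕ) (h : ℕ → ℝ) (hh : ∀ i, 0 ≤ h i) (y i0 : ℕ)
    (hb : 2 ^ i0 ≤ b) :
    HH j0 J b h y ≤ ∑ i ∈ Icc i0 (Nat.log 2 y), ht j0 J h (max i j0) := by
  classical
  unfold HH
  have hmap : ∀ t ∈ Ioc b y, Nat.log 2 t ∈ Icc i0 (Nat.log 2 y) := by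
    intro t ht'
    rw [mem_Ioc] at ht'
    rw [mem_Icc]
    refine ⟨?_, Nat.log_mono_right ht'.2⟩
    exact Nat.le_log_of_pow_le (by norm_num) (by omega)
  rw [← sum_fiberwise_of_maps_to hmap]
  refine sum_le_sum fun i _ => ?_
  have h1 : ∀ t ∈ (Ioc b y).filter (fun t => Nat.log 2 t = i),
      eta j0 J h t / t ≤ ht j0 J h (max i j0) * (1 / 2 ^ i) := by
    intro t ht'
    rw [mem_filter, mem_Ioc] at ht'
    have h2 : 2 ^ i ≤ t := by
      rw [← ht'.2]; exact Nat.pow_log_le_self 2 (by omega)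
    have h3 : ((2 : ℝ) ^ i) ≤ t := by exact_mod_cast h2
    unfold eta
    rw [ht'.2, div_eq_mul_one_div]
    refine mul_le_mul_of_nonneg_left ?_ (ht_nonneg _ _ _ hh _)
    exact one_div_le_one_div_of_le (by positivity) h3
  refine (sum_le_sum h1).trans ?_
  rw [sum_const, nsmul_eq_mul]
  have h4 : ((Ioc b y).filter (fun t => Nat.log 2 t = i)).card ≤ 2 ^ i := by
    have hsub : (Ioc b y).filter (fun t => Nat.log 2 t = i) ⊆ Ico (2 ^ i) (2 ^ (i + 1)) := by
      intro t ht'
      rw [mem_filter, mem_Ioc] at ht'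
      rw [mem_Ico]
      constructor
      · rw [← ht'.2]; exact Nat.pow_log_le_self 2 (by omega)
      · rw [← ht'.2]; exact Nat.lt_pow_succ_log_self (by norm_num) t
    refine (card_le_card hsub).trans ?_
    rw [Nat.card_Ico, pow_succ]; omega
  have h5 : (((Ioc b y).filter (fun t => Nat.log 2 t = i)).card : ℝ) ≤ 2 ^ i := by exact_mod_cast h4
  have h6 : (0 : ℝ) ≤ ht j0 J h (max i j0) * (1 / 2 ^ i) :=
    mul_nonneg (ht_nonneg _ _ _ hh _) (by positivity)
  calc (((Ioc b y).filter (fun t => Nat.log 2 t = i)).card : ℝ) * (ht j0 J h (max i j0) * (1 / 2 ^ i))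
      ≤ 2 ^ i * (ht j0 J h (max i j0) * (1 / 2 ^ i)) := mul_le_mul_of_nonneg_right h5 h6
    _ = ht j0 J h (max i j0) := by
      have : (2 : ℝ) ^ i ≠ 0 := by positivity
      field_simp

/-- constants of the NUM LEMMA -/
def numA : ℕ := 11000
def numY0 : ℕ := 600 * numA
def numC : ℝ := 2000000

/-- **NUM LEMMA.** -/
theorem num_lemma (Q : ℕ) (hQ : 1 ≤ Q) (h : ℕ → ℝ) (hh : ∀ i, 0 ≤ h i) (sp : ℕ → ℝ)
    (V : ℕ → Prop) (P : ℕ → ℕ → ℝ → Prop)
    (hmono : ∀ y u c c', c ≤ c' → P y u c → P y u c')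
    (hsp : ∀ y, V y → numY0 * Q < y → sp y ≤ y * h (Nat.log 2 y))
    (S0 : ℝ) (hS0 : 4 * S0 ≤ (numY0 * Q : ℕ) * h (Nat.log 2 (numY0 * Q)))
    (base : ∀ y u, V y → u ≤ y → y ≤ numY0 * Q → P y u S0)
    (R1 : ∀ y u, V y → u ≤ y → numY0 * Q < y → y < 6 * u →
      ∃ w, y ≤ 24 * w ∧ 12 * w ≤ y ∧ V (y - w) ∧
        ∀ c c', P (y - w) (u - w) c → P y w c' → P y u (sp y + c + c'))
    (R2 : ∀ y u, V y → u ≤ y → numY0 * Q < y → 6 * u ≤ y →
      ∃ y' s, 2 * y ≤ 3 * y' ∧ 8 * y' ≤ 7 * y ∧ s ≤ u + 2 * Q ∧ s ≤ y' ∧ V y' ∧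
        ∀ c, P y' s c → P y u (sp y + c))
    (y : ℕ) (hV : V y) (hy : numY0 * Q < y) :
    P y y (numC * y * ∑ i ∈ Icc (Nat.log 2 (numY0 * Q)) (Nat.log 2 y), h i) := by
  set y1 := numY0 * Q with hy1
  set j0 := Nat.log 2 y1 with hj0
  set J := Nat.log 2 y with hJ
  set b := 2 ^ (j0 - 2) with hb
  have hy1big : 6600000 ≤ y1 := by
    rw [hy1]; unfold numY0 numA; nlinarith
  have hj0big : 2 ≤ j0 := by
    rw [hj0]; exact Nat.le_log_of_pow_le (by norm_num) (by omega)
  have hpj0 : 2 ^ j0 ≤ y1 := Nat.pow_log_le_self 2 (by omega)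
  have hpj0' : y1 < 2 ^ (j0 + 1) := Nat.lt_pow_succ_log_self (by norm_num) y1
  let F : ℕ → ℕ → ℝ := fun y u =>
    (numA : ℝ) * u * HH j0 J b h y + 30 * y * eta j0 J h y
  -- main claim
  have claim : ∀ z, z ≤ y → V z → y1 ≤ 2 * z → ∀ u, u ≤ z → P z u (F z u) := by
    intro z
    induction z using Nat.strong_induction_on with
    | _ z ih =>
    intro hzy hVz hz1
    -- nonnegativity
    have hzpos : 0 < z := by omega
    have hzR : (0 : ℝ) < z := by exact_mod_cast hzpos
    have hlogzJ : Nat.log 2 z ≤ J := Nat.log_mono_right hzy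
    by_cases hsmall : z ≤ y1
    · -- base case
      intro u hu
      refine hmono _ _ _ _ ?_ (base z u hVz hu hsmall)
      have h1 : eta j0 J h z = ht j0 J h j0 := by
        unfold eta
        rw [max_eq_right (Nat.log_mono_right hsmall)]
      have hj0J : j0 ≤ J := Nat.log_mono_right hy.le
      have h2 : h j0 ≤ ht j0 J h j0 := le_ht _ _ _ hh _ le_rfl hj0J
      have h3 : (0 : ℝ) ≤ (numA : ℝ) * u * HH j0 J b h z :=
        mul_nonneg (by positivity) (HH_nonneg _ _ _ _ hh _)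
      have h4 : ((y1 : ℕ) : ℝ) ≤ 2 * z := by exact_mod_cast hz1
      have h5 : 0 ≤ h j0 := hh j0
      show S0 ≤ (numA : ℝ) * u * HH j0 J b h z + 30 * z * eta j0 J h z
      rw [h1]
      have h6 : (y1 : ℝ) * h j0 ≤ 2 * z * ht j0 J h j0 :=
        mul_le_mul h4 h2 h5 (by positivity)
      nlinarith [mul_nonneg hzR.le (ht_nonneg j0 J h hh j0)]
    · rw [not_le] at hsmall
      have hlogz : j0 ≤ Nat.log 2 z := Nat.log_mono_right hsmall.le
      have hetaz : eta j0 J h z = ht j0 J h (Nat.log 2 z) := by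
        unfold eta; rw [max_eq_left hlogz]
      have hhz : h (Nat.log 2 z) ≤ eta j0 J h z := by
        rw [hetaz]; exact le_ht _ _ _ hh _ hlogz hlogzJ
      have hspz : sp z ≤ z * eta j0 J h z :=
        (hsp z hVz hsmall).trans (mul_le_mul_of_nonneg_left hhz hzR.le)
      have hetaz0 : 0 ≤ eta j0 J h z := eta_nonneg _ _ _ hh _
      -- bound for H z
      have hHz : 2 * (numA : ℝ) * Q * HH j0 J b h z ≤ z * eta j0 J h z := by
        have h1 := HH_block j0 J b h hh z (j0 - 2) le_rfl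
        have h2 : ∀ i ∈ Icc (j0 - 2) (Nat.log 2 z), ht j0 J h (max i j0)
            ≤ (16 / 15 : ℝ) ^ (Nat.log 2 z - i) * ht j0 J h (Nat.log 2 z) := by
          intro i hi
          rw [mem_Icc] at hi
          have h3 := ht_far j0 J h hh (max i j0) (Nat.log 2 z - max i j0)
          rw [show max i j0 + (Nat.log 2 z - max i j0) = Nat.log 2 z by omega] at h3
          refine h3.trans (mul_le_mul_of_nonneg_right ?_ (ht_nonneg _ _ _ hh _))
          exact pow_le_pow_right₀ (by norm_num) (by omega)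
        have h3 : HH j0 J b h z ≤
            (∑ i ∈ Icc (j0 - 2) (Nat.log 2 z), (16 / 15 : ℝ) ^ (Nat.log 2 z - i))
              * eta j0 J h z := by
          rw [hetaz, sum_mul]
          exact h1.trans (sum_le_sum h2)
        set m := Nat.log 2 z - (j0 - 2) with hm
        have h4 : ∑ i ∈ Icc (j0 - 2) (Nat.log 2 z), (16 / 15 : ℝ) ^ (Nat.log 2 z - i)
            = ∑ e ∈ range (m + 1), (16 / 15 : ℝ) ^ e := by
          have h5 : ∀ (f : ℕ → ℝ), ∑ i ∈ Icc (j0 - 2) (Nat.log 2 z), f (Nat.log 2 z - i)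
              = ∑ e ∈ range (m + 1), f e := by
            intro f
            refine sum_bij' (fun i _ => Nat.log 2 z - i) (fun e _ => Nat.log 2 z - e)
              ?_ ?_ ?_ ?_ ?_
            · intro i hi; rw [mem_Icc] at hi; simp only [mem_range]; omega
            · intro e he; rw [mem_range] at he; simp only [mem_Icc]; omega
            · intro i hi; rw [mem_Icc] at hi; omega
            · intro e he; rw [mem_range] at he; omega
            · intro i hi; rfl
          exact h5 (fun e => (16 / 15 : ℝ) ^ e)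
        have h5 : ∑ e ∈ range (m + 1), (16 / 15 : ℝ) ^ e ≤ 16 * (16 / 15 : ℝ) ^ m := by
          rw [geom_sum_eq (by norm_num : (16 / 15 : ℝ) ≠ 1)]
          rw [pow_succ]
          have : (0 : ℝ) ≤ (16 / 15 : ℝ) ^ m := by positivity
          rw [div_le_iff₀ (by norm_num)]
          nlinarith
        have h6 : (16 / 15 : ℝ) ^ m ≤ 2 ^ m :=
          pow_le_pow_left₀ (by norm_num) (by norm_num) m
        have h7 : 2 ^ m * y1 ≤ 8 * z := by
          have h8 : 2 ^ (Nat.log 2 z) ≤ z := Nat.pow_log_le_self 2 (by omega)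
          have h9 : 2 ^ m * 2 ^ (j0 + 1) = 8 * 2 ^ (Nat.log 2 z) := by
            rw [← pow_add, show (8 : ℕ) = 2 ^ 3 by norm_num, ← pow_add]
            congr 1; omega
          calc 2 ^ m * y1 ≤ 2 ^ m * 2 ^ (j0 + 1) := Nat.mul_le_mul_left _ hpj0'.le
            _ = 8 * 2 ^ (Nat.log 2 z) := h9
            _ ≤ 8 * z := Nat.mul_le_mul_left _ h8
        have h8 : (2 : ℝ) ^ m * y1 ≤ 8 * z := by exact_mod_cast h7
        have hy1R : (y1 : ℝ) = 600 * numA * Q := by
          rw [hy1]; unfold numY0; push_cast; ring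
        have hAQ : (0 : ℝ) ≤ (numA : ℝ) * Q := by positivity
        have h9 : 2 * (numA : ℝ) * Q * (16 * (2 : ℝ) ^ m) ≤ z := by
          rw [hy1R] at h8
          nlinarith [mul_nonneg hAQ (by positivity : (0 : ℝ) ≤ (2 : ℝ) ^ m)]
        have h10 : ∑ i ∈ Icc (j0 - 2) (Nat.log 2 z), (16 / 15 : ℝ) ^ (Nat.log 2 z - i)
            ≤ 16 * (2 : ℝ) ^ m := by
          rw [h4]; linarith
        calc 2 * (numA : ℝ) * Q * HH j0 J b h z
            ≤ 2 * (numA : ℝ) * Q * ((16 * (2 : ℝ) ^ m) * eta j0 J h z) := by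
              refine mul_le_mul_of_nonneg_left (h3.trans
                (mul_le_mul_of_nonneg_right h10 hetaz0)) (by positivity)
          _ = (2 * (numA : ℝ) * Q * (16 * (2 : ℝ) ^ m)) * eta j0 J h z := by ring
          _ ≤ z * eta j0 J h z := mul_le_mul_of_nonneg_right h9 hetaz0
      -- R2 part
      have part2 : ∀ u, u ≤ z → 6 * u ≤ z → P z u (F z u) := by
        intro u hu h6u
        obtain ⟨y', s, ha, hb', hs, hs', hV', hR⟩ := R2 z u hVz hu hsmall h6u
        have hlt : y' < z := by omega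
        have hP := ih y' hlt (by omega) hV' (by omega) s hs'
        refine hmono _ _ _ _ ?_ (hR _ hP)
        have h1 : HH j0 J b h y' ≤ HH j0 J b h z := HH_mono _ _ _ _ hh hlt.le
        have h2 : eta j0 J h y' ≤ 16 / 15 * eta j0 J h z :=
          (eta_close j0 J h hh hlt.le (by omega)).1
        have h3 : (y' : ℝ) ≤ 7 / 8 * z := by
          have : ((8 * y' : ℕ) : ℝ) ≤ ((7 * z : ℕ) : ℝ) := by exact_mod_cast hb'
          push_cast at this; linarith
        have h4 : (s : ℝ) ≤ u + 2 * Q := by exact_mod_cast hs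
        have h5 : (0 : ℝ) ≤ HH j0 J b h z := HH_nonneg _ _ _ _ hh _
        have h5' : (0 : ℝ) ≤ HH j0 J b h y' := HH_nonneg _ _ _ _ hh _
        have h6 : (numA : ℝ) * s * HH j0 J b h y' ≤ (numA : ℝ) * (u + 2 * Q) * HH j0 J b h z := by
          refine mul_le_mul (mul_le_mul_of_nonneg_left h4 (by positivity)) h1 h5' (by positivity)
        have h7 : 30 * (y' : ℝ) * eta j0 J h y' ≤ 28 * (z * eta j0 J h z) := by
          have h8 : (y' : ℝ) * eta j0 J h y' ≤ (7 / 8 * z) * (16 / 15 * eta j0 J h z) :=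
            mul_le_mul h3 h2 (eta_nonneg _ _ _ hh _) (by positivity)
          nlinarith
        show sp z + ((numA : ℝ) * s * HH j0 J b h y' + 30 * y' * eta j0 J h y')
          ≤ (numA : ℝ) * u * HH j0 J b h z + 30 * z * eta j0 J h z
        nlinarith
      intro u hu
      by_cases h6u : 6 * u ≤ z
      · exact part2 u hu h6u
      · rw [not_le] at h6u
        obtain ⟨w, hw1, hw2, hVw, hR⟩ := R1 z u hVz hu hsmall h6u
        have hwpos : 0 < w := by omega
        have hP1 := ih (z - w) (by omega) (by omega) hVw (by omega) (u - w) (by omega)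
        have hP2 := part2 w (by omega) (by omega)
        refine hmono _ _ _ _ ?_ (hR _ _ hP1 hP2)
        -- estimates
        have hwz : w ≤ z := by omega
        have hwu : w ≤ u := by omega
        have c1 : ((z - w : ℕ) : ℝ) = z - w := by push_cast [Nat.cast_sub hwz]; ring
        have c2 : ((u - w : ℕ) : ℝ) = u - w := by push_cast [Nat.cast_sub hwu]; ring
        have hw1R : (z : ℝ) ≤ 24 * w := by exact_mod_cast hw1
        have hw2R : 12 * (w : ℝ) ≤ z := by exact_mod_cast hw2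
        have h6uR : (z : ℝ) < 6 * u := by exact_mod_cast h6u
        have hwR : (0 : ℝ) < w := by exact_mod_cast hwpos
        have h2 : eta j0 J h (z - w) ≤ 16 / 15 * eta j0 J h z :=
          (eta_close j0 J h hh (Nat.sub_le _ _) (by omega)).1
        have hdiff : (15 / 16 * (1 / 24) : ℝ) * eta j0 J h z
            ≤ HH j0 J b h z - HH j0 J b h (z - w) := by
          have hbz : b ≤ z - w := by
            have : b ≤ 2 ^ (j0 - 1) := Nat.pow_le_pow_right (by norm_num) (by omega)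
            have h9 : 2 ^ (j0 - 1) * 2 = 2 ^ j0 := by
              rw [← pow_succ]; congr 1; omega
            omega
          have h3 : HH j0 J b h z = HH j0 J b h (z - w)
              + ∑ t ∈ Ioc (z - w) z, eta j0 J h t / t := by
            unfold HH
            rw [← sum_union]
            · congr 1
              rw [Ioc_union_Ioc_eq_Ioc hbz (Nat.sub_le _ _)]
            · rw [Finset.disjoint_left]
              intro t h4 h5
              rw [mem_Ioc] at h4 h5; omega
          rw [h3]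
          have h4 : ∀ t ∈ Ioc (z - w) z, (15 / 16 : ℝ) * eta j0 J h z / z ≤ eta j0 J h t / t := by
            intro t ht'
            rw [mem_Ioc] at ht'
            have htpos : (0 : ℝ) < t := by
              have : 0 < t := by omega
              exact_mod_cast this
            have h5 : eta j0 J h z ≤ 16 / 15 * eta j0 J h t :=
              (eta_close j0 J h hh ht'.2 (by omega)).2
            have h6 : (t : ℝ) ≤ z := by exact_mod_cast ht'.2
            have h7 : (0 : ℝ) ≤ eta j0 J h t := eta_nonneg _ _ _ hh _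
            rw [div_le_div_iff₀ hzR htpos]
            nlinarith [mul_le_mul_of_nonneg_left h6 h7, mul_nonneg h7 hzR.le]
          have h5 := card_nsmul_le_sum (Ioc (z - w) z) (fun t => eta j0 J h t / t) _ h4
          rw [Nat.card_Ioc, nsmul_eq_mul] at h5
          rw [show z - (z - w) = w by omega] at h5
          have h6 : (15 / 16 * (1 / 24) : ℝ) * eta j0 J h z
              ≤ (w : ℝ) * ((15 / 16 : ℝ) * eta j0 J h z / z) := by
            have h7 : (w : ℝ) * ((15 / 16 : ℝ) * eta j0 J h z / z)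
                = ((15 / 16 : ℝ) * eta j0 J h z * w) / z := by ring
            rw [h7, le_div_iff₀ hzR]
            nlinarith [mul_le_mul_of_nonneg_left hw1R hetaz0]
          linarith
        have hA : (numA : ℝ) = 11000 := by unfold numA; norm_num
        set D := HH j0 J b h z - HH j0 J b h (z - w) with hD
        have hD0 : 0 ≤ D := le_trans (mul_nonneg (by norm_num) hetaz0) hdiff
        have h10 : (numA : ℝ) * (z / 12) * ((15 / 16 * (1 / 24) : ℝ) * eta j0 J h z)
            ≤ (numA : ℝ) * (u - w) * D := by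
          refine mul_le_mul ?_ hdiff (mul_nonneg (by norm_num) hetaz0) ?_
          · rw [hA]; nlinarith
          · rw [hA]; nlinarith
        have h11 : (z : ℝ) - w ≤ z := by linarith
        have h12 : 30 * ((z : ℝ) - w) * eta j0 J h (z - w) ≤ 32 * (z * eta j0 J h z) := by
          have h13 : ((z : ℝ) - w) * eta j0 J h (z - w) ≤ z * (16 / 15 * eta j0 J h z) :=
            mul_le_mul h11 h2 (eta_nonneg _ _ _ hh _) hzR.le
          nlinarith
        show sp z + ((numA : ℝ) * ((u - w : ℕ) : ℝ) * HH j0 J b h (z - w)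
            + 30 * ((z - w : ℕ) : ℝ) * eta j0 J h (z - w))
            + ((numA : ℝ) * w * HH j0 J b h z + 30 * z * eta j0 J h z)
          ≤ (numA : ℝ) * u * HH j0 J b h z + 30 * z * eta j0 J h z
        rw [c1, c2]
        have hHeq : HH j0 J b h (z - w) = HH j0 J b h z - D := by rw [hD]; ring
        rw [hHeq]
        rw [hA] at h10 ⊢
        nlinarith [mul_nonneg hzR.le hetaz0]
  have hfin := claim y le_rfl hV (by omega) y le_rfl
  refine hmono _ _ _ _ ?_ hfin
  have hyR : (0 : ℝ) ≤ y := by positivity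
  set Sg := ∑ i ∈ Icc j0 J, h i with hSg
  have hSg0 : 0 ≤ Sg := sum_nonneg fun i _ => hh i
  have hj0J : j0 ≤ J := Nat.log_mono_right hy.le
  have h1 : HH j0 J b h y ≤ 96 * Sg := by
    have h2 := HH_block j0 J b h hh y (j0 - 2) le_rfl
    have h3 : ∑ i ∈ Icc (j0 - 2) (Nat.log 2 y), ht j0 J h (max i j0)
        ≤ ∑ i ∈ Icc (j0 - 2) (j0 - 1), ht j0 J h (max i j0)
          + ∑ i ∈ Icc j0 J, ht j0 J h i := by
      rw [← hJ]
      have h4 : Icc (j0 - 2) J = Icc (j0 - 2) (j0 - 1) ∪ Icc j0 J := by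
        ext i; simp only [mem_Icc, mem_union]; omega
      rw [h4, sum_union]
      · refine add_le_add le_rfl (le_of_eq ?_)
        refine sum_congr rfl fun i hi => ?_
        rw [mem_Icc] at hi
        rw [max_eq_left hi.1]
      · rw [Finset.disjoint_left]
        intro t h4 h5
        rw [mem_Icc] at h4 h5; omega
    have h5 : ∑ i ∈ Icc (j0 - 2) (j0 - 1), ht j0 J h (max i j0) ≤ 2 * ht j0 J h j0 := by
      have h6 : ∀ i ∈ Icc (j0 - 2) (j0 - 1), ht j0 J h (max i j0) ≤ ht j0 J h j0 := by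
        intro i hi
        rw [mem_Icc] at hi
        rw [max_eq_right (by omega)]
      refine (sum_le_card_nsmul _ _ _ h6).trans ?_
      rw [Nat.card_Icc, nsmul_eq_mul]
      have h7 : ((j0 - 1 + 1 - (j0 - 2) : ℕ) : ℝ) = 2 := by
        have : j0 - 1 + 1 - (j0 - 2) = 2 := by omega
        rw [this]; norm_num
      rw [h7]
    have h6 := sum_ht j0 J h hh (Icc j0 J)
    have h7 : ht j0 J h j0 ≤ 32 * Sg := by
      have := sum_ht j0 J h hh {j0}
      simpa using this
    linarith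
  have h2 : eta j0 J h y ≤ 32 * Sg := by
    have h3 := sum_ht j0 J h hh {max (Nat.log 2 y) j0}
    simpa [eta] using h3
  have hA : (numA : ℝ) = 11000 := by unfold numA; norm_num
  show (numA : ℝ) * y * HH j0 J b h y + 30 * y * eta j0 J h y ≤ numC * y * Sg
  rw [hA]
  unfold numC
  have h3 : (y : ℝ) * HH j0 J b h y ≤ y * (96 * Sg) := mul_le_mul_of_nonneg_left h1 hyR
  have h4 : (y : ℝ) * eta j0 J h y ≤ y * (32 * Sg) := mul_le_mul_of_nonneg_left h2 hyR
  nlinarith [mul_nonneg hyR hSg0]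

end H69.HS
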